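import Pool.Agent.X258.LLV.Graph

/-! Seven points of the lamplighter graph with one finite Voronoi cell, and the bound
`|T| ≤ I + I^3` for every finite set `T` with `I` infinite cells. -/

namespace Pool.Agent.X258.LLV

open Finset

/-- the well separated points -/
def P (N c : ℤ) : Vtx :=
  if c = 0 then (∅, 0)
  else if c = -1 then ({-N}, -1)
  else if c = -2 then ({-1, -(2 * N)}, -1)
  else if c = -3 then ({-(3 * N)}, 1)
  else if c = 1 then ({N}, 1)
  else if c = 2 then ({0, 2 * N}, 1)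
  else if c = 3 then ({3 * N}, -1)
  else ({c * N}, 0)

theorem P_zero (N : ℤ) : P N 0 = (∅, 0) := by simp [P]
theorem P_m1 (N : ℤ) : P N (-1) = ({-N}, -1) := by norm_num [P]
theorem P_m2 (N : ℤ) : P N (-2) = ({-1, -(2 * N)}, -1) := by norm_num [P]
theorem P_m3 (N : ℤ) : P N (-3) = ({-(3 * N)}, 1) := by norm_num [P]
theorem P_1 (N : ℤ) : P N 1 = ({N}, 1) := by norm_num [P]
theorem P_2 (N : ℤ) : P N 2 = ({0, 2 * N}, 1) := by norm_num [P]
theorem P_3 (N : ℤ) : P N 3 = ({3 * N}, -1) := by norm_num [P]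

theorem P_cases (N c : ℤ) : c = 0 ∨ c = -1 ∨ c = -2 ∨ c = -3 ∨ c = 1 ∨ c = 2 ∨ c = 3 ∨
    P N c = ({c * N}, 0) := by
  by_cases h0 : c = 0
  · exact Or.inl h0
  by_cases h1 : c = -1
  · exact Or.inr (Or.inl h1)
  by_cases h2 : c = -2
  · exact Or.inr (Or.inr (Or.inl h2))
  by_cases h3 : c = -3
  · exact Or.inr (Or.inr (Or.inr (Or.inl h3)))
  by_cases h4 : c = 1
  · exact Or.inr (Or.inr (Or.inr (Or.inr (Or.inl h4))))
  by_cases h5 : c = 2
  · exact Or.inr (Or.inr (Or.inr (Or.inr (Or.inr (Or.inl h5)))))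
  by_cases h6 : c = 3
  · exact Or.inr (Or.inr (Or.inr (Or.inr (Or.inr (Or.inr (Or.inl h6))))))
  · right; right; right; right; right; right; right
    simp [P, h0, h1, h2, h3, h4, h5, h6]

theorem D_empty (g : Finset ℤ) (q : ℤ) :
    D (g, q) (∅, 0) = 2 * (hi g q 0 - lo g q 0) - |q| := by
  have : symmDiff g (∅ : Finset ℤ) = g := symmDiff_bot g
  simp only [D, this, sub_zero]

theorem lo_common {g f : Finset ℤ} {q p K : ℤ} (hK : 0 < K) (hm : lo g q 0 ≤ -K)
    (hf : ∀ j ∈ f, -K < j) (hp : -K < p) : lo (symmDiff g f) q p = lo g q 0 := by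
  apply lo_eq (lo_le_left _ _ _) (by omega)
  · intro j hj
    rcases mem_symmDiff.1 hj with ⟨h, _⟩ | ⟨h, _⟩
    · exact lo_le_mem _ _ _ h
    · have := hf j h; omega
  · rcases lo_cases g q 0 with h | h | h
    · exact Or.inl h
    · omega
    · right; right
      rw [mem_symmDiff]
      exact Or.inl ⟨h, fun h' => by have := hf _ h'; omega⟩

theorem hi_common {g f : Finset ℤ} {q p K : ℤ} (hK : 0 < K) (hm : K ≤ hi g q 0)
    (hf : ∀ j ∈ f, j + 1 < K) (hp : p < K) : hi (symmDiff g f) q p = hi g q 0 := by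
  apply hi_eq (le_hi_left _ _ _) (by omega)
  · intro j hj
    rcases mem_symmDiff.1 hj with ⟨h, _⟩ | ⟨h, _⟩
    · exact le_hi_mem _ _ _ h
    · have := hf j h; omega
  · rcases hi_cases g q 0 with h | h | ⟨j, hj, h⟩
    · exact Or.inl h
    · omega
    · right; right
      refine ⟨j, ?_, h⟩
      rw [mem_symmDiff]
      exact Or.inl ⟨hj, fun h' => by have := hf _ h'; omega⟩

/-- far vertices are strictly closer to one of the six blockers -/
theorem blocked (N : ℤ) (hN : 3 ≤ N) (g : Finset ℤ) (q : ℤ)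
    (h : ∀ c ∈ Finset.Icc (-3 : ℤ) 3, D (g, q) (P N 0) ≤ D (g, q) (P N c)) :
    -(3 * N + 1) < lo g q 0 ∧ hi g q 0 < 3 * N + 2 := by
  have h1 := h (-1) (by simp)
  have h2 := h (-2) (by simp)
  have h3 := h (-3) (by simp)
  have h4 := h 1 (by simp)
  have h5 := h 2 (by simp)
  have h6 := h 3 (by simp)
  rw [P_zero, D_empty] at h1 h2 h3 h4 h5 h6
  rw [P_m1] at h1
  rw [P_m2] at h2
  rw [P_m3] at h3
  rw [P_1] at h4
  rw [P_2] at h5
  rw [P_3] at h6
  simp only [D] at h1 h2 h3 h4 h5 h6
  have a1 := lo_le_left g q 0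
  have a2 := lo_le_right g q 0
  have a3 := le_hi_left g q 0
  have a4 := le_hi_right g q 0
  constructor
  · by_contra hcon
    have hm : lo g q 0 ≤ -(3 * N + 1) := by omega
    rw [lo_common (K := 3 * N + 1) (by omega) hm
      (by intro j hj; rw [mem_singleton] at hj; omega) (by omega)] at h1
    rw [lo_common (K := 3 * N + 1) (by omega) hm
      (by intro j hj; rw [mem_insert, mem_singleton] at hj; omega) (by omega)] at h2
    rw [lo_common (K := 3 * N + 1) (by omega) hm
      (by intro j hj; rw [mem_singleton] at hj; omega) (by omega)] at h3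
    by_cases hh : 1 ≤ hi g q 0
    · rcases le_or_gt q 0 with hq | hq
      · have e : hi (symmDiff g {-(3 * N)}) q 1 = hi g q 0 := by
          apply hi_eq a3 hh
          · intro j hj
            rcases mem_symmDiff.1 hj with ⟨h, _⟩ | ⟨h, _⟩
            · exact le_hi_mem _ _ _ h
            · rw [mem_singleton] at h; omega
          · rcases hi_cases g q 0 with h | h | ⟨j, hj, h⟩
            · exact Or.inl h
            · omega
            · right; right
              refine ⟨j, ?_, h⟩
              rw [mem_symmDiff]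
              exact Or.inl ⟨hj, fun h' => by rw [mem_singleton] at h'; omega⟩
        rw [e, abs_of_nonpos hq, abs_of_nonpos (by omega : q - 1 ≤ 0)] at h3
        omega
      · have e : hi (symmDiff g {-N}) q (-1) = hi g q 0 := by
          apply hi_eq a3 (by omega)
          · intro j hj
            rcases mem_symmDiff.1 hj with ⟨h, _⟩ | ⟨h, _⟩
            · exact le_hi_mem _ _ _ h
            · rw [mem_singleton] at h; omega
          · rcases hi_cases g q 0 with h | h | ⟨j, hj, h⟩
            · exact Or.inl h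
            · omega
            · right; right
              refine ⟨j, ?_, h⟩
              rw [mem_symmDiff]
              exact Or.inl ⟨hj, fun h' => by rw [mem_singleton] at h'; omega⟩
        rw [e, abs_of_nonneg hq.le, abs_of_nonneg (by omega : 0 ≤ q - -1)] at h1
        omega
    · have hh0 : hi g q 0 = 0 := by omega
      have hg : ∀ j ∈ g, j + 1 ≤ 0 := fun j hj => hh0 ▸ le_hi_mem g q 0 hj
      rcases eq_or_lt_of_le (by omega : q ≤ 0) with hq | hq
      · subst hq
        have e : hi (symmDiff g {-N}) 0 (-1) = 0 := by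
          apply hi_eq le_rfl (by omega) ?_ (Or.inl rfl)
          intro j hj
          rcases mem_symmDiff.1 hj with ⟨h, _⟩ | ⟨h, _⟩
          · exact hg j h
          · rw [mem_singleton] at h; omega
        rw [e, hh0] at h1
        norm_num at h1
      · by_cases hg1 : (-1 : ℤ) ∈ g
        · have e : hi (symmDiff g {-1, -(2 * N)}) q (-1) = -1 := by
            apply hi_eq (by omega) le_rfl ?_ (Or.inr (Or.inl rfl))
            intro j hj
            rcases mem_symmDiff.1 hj with ⟨h, h'⟩ | ⟨h, h'⟩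
            · have := hg j h
              have : j ≠ -1 := by
                rintro rfl
                exact h' (by simp)
              omega
            · rw [mem_insert, mem_singleton] at h
              rcases h with h | h
              · rw [h] at h'; exact absurd hg1 h'
              · omega
          rw [e, hh0, abs_of_nonpos hq.le, abs_of_nonpos (by omega : q - -1 ≤ 0)] at h2
          omega
        · have e : hi (symmDiff g {-N}) q (-1) = -1 := by
            apply hi_eq (by omega) le_rfl ?_ (Or.inr (Or.inl rfl))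
            intro j hj
            rcases mem_symmDiff.1 hj with ⟨h, h'⟩ | ⟨h, h'⟩
            · have := hg j h
              have : j ≠ -1 := by
                rintro rfl
                exact hg1 h
              omega
            · rw [mem_singleton] at h
              omega
          rw [e, hh0, abs_of_nonpos hq.le, abs_of_nonpos (by omega : q - -1 ≤ 0)] at h1
          omega
  · by_contra hcon
    have hm : 3 * N + 2 ≤ hi g q 0 := by omega
    rw [hi_common (K := 3 * N + 2) (by omega) hm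
      (by intro j hj; rw [mem_singleton] at hj; omega) (by omega)] at h4
    rw [hi_common (K := 3 * N + 2) (by omega) hm
      (by intro j hj; rw [mem_insert, mem_singleton] at hj; omega) (by omega)] at h5
    rw [hi_common (K := 3 * N + 2) (by omega) hm
      (by intro j hj; rw [mem_singleton] at hj; omega) (by omega)] at h6
    by_cases hh : lo g q 0 ≤ -1
    · rcases le_or_gt 0 q with hq | hq
      · have e : lo (symmDiff g {3 * N}) q (-1) = lo g q 0 := by
          apply lo_eq a1 hh
          · intro j hj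
            rcases mem_symmDiff.1 hj with ⟨h, _⟩ | ⟨h, _⟩
            · exact lo_le_mem _ _ _ h
            · rw [mem_singleton] at h; omega
          · rcases lo_cases g q 0 with h | h | h
            · exact Or.inl h
            · omega
            · right; right
              rw [mem_symmDiff]
              exact Or.inl ⟨h, fun h' => by rw [mem_singleton] at h'; omega⟩
        rw [e, abs_of_nonneg hq, abs_of_nonneg (by omega : 0 ≤ q - -1)] at h6
        omega
      · have e : lo (symmDiff g {N}) q 1 = lo g q 0 := by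
          apply lo_eq a1 (by omega)
          · intro j hj
            rcases mem_symmDiff.1 hj with ⟨h, _⟩ | ⟨h, _⟩
            · exact lo_le_mem _ _ _ h
            · rw [mem_singleton] at h; omega
          · rcases lo_cases g q 0 with h | h | h
            · exact Or.inl h
            · omega
            · right; right
              rw [mem_symmDiff]
              exact Or.inl ⟨h, fun h' => by rw [mem_singleton] at h'; omega⟩
        rw [e, abs_of_nonpos hq.le, abs_of_nonpos (by omega : q - 1 ≤ 0)] at h4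
        omega
    · have hh0 : lo g q 0 = 0 := by omega
      have hg : ∀ j ∈ g, 0 ≤ j := fun j hj => hh0 ▸ lo_le_mem g q 0 hj
      rcases eq_or_lt_of_le (by omega : 0 ≤ q) with hq | hq
      · subst hq
        have e : lo (symmDiff g {N}) 0 1 = 0 := by
          apply lo_eq le_rfl (by omega) ?_ (Or.inl rfl)
          intro j hj
          rcases mem_symmDiff.1 hj with ⟨h, _⟩ | ⟨h, _⟩
          · exact hg j h
          · rw [mem_singleton] at h; omega
        rw [e, hh0] at h4
        norm_num at h4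
      · by_cases hg1 : (0 : ℤ) ∈ g
        · have e : lo (symmDiff g {0, 2 * N}) q 1 = 1 := by
            apply lo_eq (by omega) le_rfl ?_ (Or.inr (Or.inl rfl))
            intro j hj
            rcases mem_symmDiff.1 hj with ⟨h, h'⟩ | ⟨h, h'⟩
            · have := hg j h
              have : j ≠ 0 := by
                rintro rfl
                exact h' (by simp)
              omega
            · rw [mem_insert, mem_singleton] at h
              rcases h with h | h
              · rw [h] at h'; exact absurd hg1 h'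
              · omega
          rw [e, hh0, abs_of_nonneg hq.le, abs_of_nonneg (by omega : 0 ≤ q - 1)] at h5
          omega
        · have e : lo (symmDiff g {N}) q 1 = 1 := by
            apply lo_eq (by omega) le_rfl ?_ (Or.inr (Or.inl rfl))
            intro j hj
            rcases mem_symmDiff.1 hj with ⟨h, h'⟩ | ⟨h, h'⟩
            · have := hg j h
              have : j ≠ 0 := by
                rintro rfl
                exact hg1 h
              omega
            · rw [mem_singleton] at h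
              omega
          rw [e, hh0, abs_of_nonneg hq.le, abs_of_nonneg (by omega : 0 ≤ q - 1)] at h4
          omega

theorem cell_finite (N : ℤ) (hN : 3 ≤ N) :
    {u : Vtx | ∀ c ∈ Finset.Icc (-3 : ℤ) 3, D u (P N 0) ≤ D u (P N c)}.Finite := by
  apply Set.Finite.subset
    (s := (↑((Finset.Icc (-(3 * N + 1)) (3 * N + 2)).powerset ×ˢ
      Finset.Icc (-(3 * N + 1)) (3 * N + 2)) : Set Vtx)) (Finset.finite_toSet _)
  rintro ⟨g, q⟩ h
  obtain ⟨h1, h2⟩ := blocked N hN g q h
  have a1 := lo_le_left g q 0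
  have a3 := le_hi_left g q 0
  simp only [coe_product, Set.mem_prod, mem_coe, mem_powerset, mem_Icc]
  refine ⟨?_, by omega, by omega⟩
  intro j hj
  have := lo_le_mem g q 0 hj
  have := le_hi_mem g q 0 hj
  rw [mem_Icc]
  omega

/-! ### separation -/

theorem P_pos (N c : ℤ) : -1 ≤ (P N c).2 ∧ (P N c).2 ≤ 1 := by
  rcases P_cases N c with rfl | rfl | rfl | rfl | rfl | rfl | rfl | h
  · rw [P_zero]; simp
  · rw [P_m1]; simp
  · rw [P_m2]; simp
  · rw [P_m3]; simp
  · rw [P_1]; simp
  · rw [P_2]; simp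
  · rw [P_3]; simp
  · rw [h]; simp

theorem mem_P (N c : ℤ) (hc : c ≠ 0) : c * N ∈ (P N c).1 := by
  rcases P_cases N c with rfl | rfl | rfl | rfl | rfl | rfl | rfl | h
  · exact absurd rfl hc
  · rw [P_m1]; simp
  · rw [P_m2]; simp
  · rw [P_m3]; simp
  · rw [P_1]; simp
  · rw [P_2]; simp
  · rw [P_3]; simp
  · rw [h]; simp

theorem big (N c : ℤ) (hN : 3 ≤ N) (hc : c ≠ 0) : c * N ≤ -N ∨ N ≤ c * N := by
  rcases lt_or_gt_of_ne hc with h | h
  · left; nlinarith
  · right; nlinarith

theorem notMem_P (N c c' : ℤ) (hN : 3 ≤ N) (hc : c ≠ 0) (hcc : c ≠ c') : c * N ∉ (P N c').1 := by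
  have hb := big N c hN hc
  have hN0 : N ≠ 0 := by omega
  have hcan : ∀ k : ℤ, c * N = k * N → c = k := fun k hk => mul_right_cancel₀ hN0 hk
  intro hmem
  rcases P_cases N c' with rfl | rfl | rfl | rfl | rfl | rfl | rfl | h
  · rw [P_zero] at hmem; simp at hmem
  · rw [P_m1, mem_singleton] at hmem
    exact hcc (hcan _ (by rw [hmem]; ring))
  · rw [P_m2, mem_insert, mem_singleton] at hmem
    rcases hmem with h | h
    · omega
    · exact hcc (hcan _ (by rw [h]; ring))
  · rw [P_m3, mem_singleton] at hmem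
    exact hcc (hcan _ (by rw [hmem]; ring))
  · rw [P_1, mem_singleton] at hmem
    exact hcc (hcan _ (by rw [hmem]; ring))
  · rw [P_2, mem_insert, mem_singleton] at hmem
    rcases hmem with h | h
    · omega
    · exact hcc (hcan _ (by rw [h]))
  · rw [P_3, mem_singleton] at hmem
    exact hcc (hcan _ (by rw [hmem]))
  · rw [h, mem_singleton] at hmem
    exact hcc (hcan _ hmem)

theorem sep_bound (N x : ℤ) (u v : Vtx) (hx : x ∈ symmDiff u.1 v.1) (hb : x ≤ -N ∨ N ≤ x)
    (hu : -1 ≤ u.2 ∧ u.2 ≤ 1) : N - 1 ≤ D u v := by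
  simp only [D]
  have a1 := lo_le_left (symmDiff u.1 v.1) u.2 v.2
  have a2 := lo_le_right (symmDiff u.1 v.1) u.2 v.2
  have a3 := le_hi_left (symmDiff u.1 v.1) u.2 v.2
  have a4 := le_hi_right (symmDiff u.1 v.1) u.2 v.2
  have a5 := lo_le_mem (symmDiff u.1 v.1) u.2 v.2 hx
  have a6 := le_hi_mem (symmDiff u.1 v.1) u.2 v.2 hx
  rcases abs_cases (u.2 - v.2) with h | h <;> omega

theorem separated (N c c' : ℤ) (hN : 3 ≤ N) (hcc : c ≠ c') : N - 1 ≤ D (P N c) (P N c') := by
  by_cases hc : c = 0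
  · have hc' : c' ≠ 0 := by rintro rfl; exact hcc hc
    apply sep_bound N (c' * N) _ _ _ (big N c' hN hc') (P_pos N c)
    rw [mem_symmDiff]
    exact Or.inr ⟨mem_P N c' hc', notMem_P N c' c hN hc' (Ne.symm hcc)⟩
  · apply sep_bound N (c * N) _ _ _ (big N c hN hc) (P_pos N c)
    rw [mem_symmDiff]
    exact Or.inl ⟨mem_P N c hc, notMem_P N c c' hN hc hcc⟩

/-! ### counting -/

theorem bounds (T : Finset Vtx) (F : Set Vtx) (hF : F.Finite) :
    ∃ B : ℤ, (∀ u ∈ F, -B < u.2 ∧ u.2 < B) ∧
      (∀ w ∈ T, (-B < w.2 ∧ w.2 < B) ∧ ∀ j ∈ w.1, -B < j ∧ j < B) := by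
  obtain ⟨B1, hB1⟩ := (hF.image (fun u : Vtx => |u.2|)).bddAbove
  obtain ⟨B2, hB2⟩ := (T.finite_toSet.image (fun u : Vtx => |u.2|)).bddAbove
  obtain ⟨B3, hB3⟩ := ((T.biUnion (fun w => w.1)).finite_toSet.image (fun j : ℤ => |j|)).bddAbove
  refine ⟨max B1 (max B2 B3) + 1, ?_, ?_⟩
  · intro u hu
    have := hB1 ⟨u, hu, rfl⟩
    have h2 : |u.2| ≤ max B1 (max B2 B3) := le_trans this (le_max_left _ _)
    rw [abs_le] at h2
    omega
  · intro w hw
    refine ⟨?_, ?_⟩
    · have := hB2 ⟨w, hw, rfl⟩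
      have h2 : |w.2| ≤ max B1 (max B2 B3) :=
        le_trans this (le_trans (le_max_left _ _) (le_max_right _ _))
      rw [abs_le] at h2
      omega
    · intro j hj
      have hj' : j ∈ (↑(T.biUnion (fun w => w.1)) : Set ℤ) := by
        rw [mem_coe, mem_biUnion]
        exact ⟨w, hw, hj⟩
      have := hB3 ⟨j, hj', rfl⟩
      have h2 : |j| ≤ max B1 (max B2 B3) :=
        le_trans this (le_trans (le_max_right _ _) (le_max_right _ _))
      rw [abs_le] at h2
      omega

/-- outside the union of the finite cells, a point with infinite cell is strictly closer -/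
theorem nearest (T E : Finset Vtx) (v : Vtx) (hv : v ∈ T) (hvE : v ∉ E) (u : Vtx)
    (hu : ∀ w ∈ T, w ∉ E → ¬ ∀ x ∈ T, D u w ≤ D u x) : ∃ e ∈ E, D u e < D u v := by
  obtain ⟨e, he, hmin⟩ := Finset.exists_min_image T (D u) ⟨v, hv⟩
  have heE : e ∈ E := by
    by_contra h
    exact hu e he h hmin
  have := hu v hv hvE
  push Not at this
  obtain ⟨x, hx, hlt⟩ := this
  exact ⟨e, heE, lt_of_le_of_lt (hmin x hx) hlt⟩

theorem lowtest (T E : Finset Vtx) (hE : E ⊆ T)
    (hfin : ∀ v ∈ T, v ∉ E → {u : Vtx | ∀ w ∈ T, D u v ≤ D u w}.Finite)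
    (v : Vtx) (hv : v ∈ T) (hvE : v ∉ E) (X : Finset ℤ) (hX : X ⊆ {v.2 - 1}) :
    ∃ e ∈ E, (∀ j, v.2 ≤ j → (j ∈ e.1 ↔ j ∈ v.1)) ∧ (v.2 - 1 ∈ e.1 ↔ v.2 - 1 ∈ X) := by
  obtain ⟨f, p⟩ := v
  simp only at hX ⊢
  have hF : (⋃ w ∈ T \ E, {u : Vtx | ∀ x ∈ T, D u w ≤ D u x}).Finite := by
    apply Set.Finite.biUnion (Finset.finite_toSet _)
    intro w hw
    rw [mem_coe, mem_sdiff] at hw
    exact hfin w hw.1 hw.2
  obtain ⟨B, hB1, hB2⟩ := bounds T _ hF
  have hXp : ∀ j ∈ X, j = p - 1 := fun j hj => mem_singleton.1 (hX hj)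
  have hpB := (hB2 _ hv).1
  simp only at hpB
  set g : Finset ℤ := (f.filter (fun j => p ≤ j)) ∪ (X ∪ {-B - 1}) with hg
  have hmg : ∀ j, j ∈ g ↔ ((j ∈ f ∧ p ≤ j) ∨ j ∈ X ∨ j = -B - 1) := by
    intro j
    rw [hg, mem_union, mem_union, mem_filter, mem_singleton]
  have hout : ∀ w ∈ T, w ∉ E → ¬ ∀ x ∈ T, D (g, -B) w ≤ D (g, -B) x := by
    intro w hw hwE hall
    have : ((g, -B) : Vtx) ∈ (⋃ w ∈ T \ E, {u : Vtx | ∀ x ∈ T, D u w ≤ D u x}) := by
      simp only [Set.mem_iUnion]
      exact ⟨w, mem_sdiff.2 ⟨hw, hwE⟩, hall⟩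
    have := (hB1 _ this).1
    simp at this
  obtain ⟨e, he, hlt⟩ := nearest T E (f, p) hv hvE (g, -B) hout
  have hlo : ∀ w ∈ T, lo (symmDiff g w.1) (-B) w.2 = -B - 1 := by
    intro w hw
    obtain ⟨⟨c1, c2⟩, c3⟩ := hB2 w hw
    apply lo_eq (by omega) (by omega)
    · intro j hj
      rcases mem_symmDiff.1 hj with ⟨h, _⟩ | ⟨h, _⟩
      · rcases (hmg j).1 h with ⟨_, h⟩ | h | h
        · omega
        · have := hXp j h; omega
        · omega
      · have := (c3 j h).1; omega
    · right; right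
      rw [mem_symmDiff]
      left
      refine ⟨(hmg _).2 (Or.inr (Or.inr rfl)), fun h => ?_⟩
      have := (c3 _ h).1
      omega
  have hhi : hi (symmDiff g f) (-B) p = p := by
    apply hi_eq (by omega) le_rfl ?_ (Or.inr (Or.inl rfl))
    intro j hj
    by_contra hjp
    have hjp : p ≤ j := by omega
    rcases mem_symmDiff.1 hj with ⟨h, h'⟩ | ⟨h, h'⟩
    · rcases (hmg j).1 h with ⟨h, _⟩ | h | h
      · exact h' h
      · have := hXp j h; omega
      · omega
    · exact h' ((hmg j).2 (Or.inl ⟨h, hjp⟩))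
  have hlo1 := hlo _ hv
  have hlo2 := hlo e (hE he)
  simp only at hlo1
  have heB := (hB2 e (hE he)).1
  simp only [D] at hlt
  rw [hlo1, hlo2, hhi, abs_of_nonpos (by omega : -B - e.2 ≤ 0),
    abs_of_nonpos (by omega : -B - p ≤ 0)] at hlt
  have a4 := le_hi_right (symmDiff g e.1) (-B) e.2
  have hn : hi (symmDiff g e.1) (-B) e.2 ≤ p - 1 := by omega
  have heq : ∀ j, p - 1 ≤ j → (j ∈ g ↔ j ∈ e.1) := by
    intro j hj
    by_contra hne
    have : j ∈ symmDiff g e.1 := by
      rw [mem_symmDiff]; tauto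
    have := le_hi_mem (symmDiff g e.1) (-B) e.2 this
    omega
  refine ⟨e, he, ?_, ?_⟩
  · intro j hj
    rw [← heq j (by omega), hmg]
    constructor
    · rintro (h | h | h)
      · exact h.1
      · have := hXp j h; omega
      · omega
    · intro h; exact Or.inl ⟨h, hj⟩
  · rw [← heq (p - 1) le_rfl, hmg]
    constructor
    · rintro (h | h | h)
      · omega
      · exact h
      · omega
    · intro h; exact Or.inr (Or.inl h)

theorem hightest (T E : Finset Vtx) (hE : E ⊆ T)
    (hfin : ∀ v ∈ T, v ∉ E → {u : Vtx | ∀ w ∈ T, D u v ≤ D u w}.Finite)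
    (v : Vtx) (hv : v ∈ T) (hvE : v ∉ E) :
    ∃ e ∈ E, ∀ j, j < v.2 → (j ∈ e.1 ↔ j ∈ v.1) := by
  obtain ⟨f, p⟩ := v
  simp only
  have hF : (⋃ w ∈ T \ E, {u : Vtx | ∀ x ∈ T, D u w ≤ D u x}).Finite := by
    apply Set.Finite.biUnion (Finset.finite_toSet _)
    intro w hw
    rw [mem_coe, mem_sdiff] at hw
    exact hfin w hw.1 hw.2
  obtain ⟨B, hB1, hB2⟩ := bounds T _ hF
  have hpB := (hB2 _ hv).1
  simp only at hpB
  set g : Finset ℤ := (f.filter (fun j => j < p)) ∪ {B} with hg
  have hmg : ∀ j, j ∈ g ↔ ((j ∈ f ∧ j < p) ∨ j = B) := by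
    intro j
    rw [hg, mem_union, mem_filter, mem_singleton]
  have hout : ∀ w ∈ T, w ∉ E → ¬ ∀ x ∈ T, D (g, B) w ≤ D (g, B) x := by
    intro w hw hwE hall
    have : ((g, B) : Vtx) ∈ (⋃ w ∈ T \ E, {u : Vtx | ∀ x ∈ T, D u w ≤ D u x}) := by
      simp only [Set.mem_iUnion]
      exact ⟨w, mem_sdiff.2 ⟨hw, hwE⟩, hall⟩
    have := (hB1 _ this).2
    simp at this
  obtain ⟨e, he, hlt⟩ := nearest T E (f, p) hv hvE (g, B) hout
  have hhi : ∀ w ∈ T, hi (symmDiff g w.1) B w.2 = B + 1 := by
    intro w hw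
    obtain ⟨⟨c1, c2⟩, c3⟩ := hB2 w hw
    apply hi_eq (by omega) (by omega)
    · intro j hj
      rcases mem_symmDiff.1 hj with ⟨h, _⟩ | ⟨h, _⟩
      · rcases (hmg j).1 h with ⟨_, h⟩ | h
        · omega
        · omega
      · have := (c3 j h).2; omega
    · right; right
      refine ⟨B, ?_, rfl⟩
      rw [mem_symmDiff]
      left
      refine ⟨(hmg _).2 (Or.inr rfl), fun h => ?_⟩
      have := (c3 _ h).2
      omega
  have hlo : lo (symmDiff g f) B p = p := by
    apply lo_eq (by omega) le_rfl ?_ (Or.inr (Or.inl rfl))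
    intro j hj
    by_contra hjp
    have hjp : j < p := by omega
    rcases mem_symmDiff.1 hj with ⟨h, h'⟩ | ⟨h, h'⟩
    · rcases (hmg j).1 h with ⟨h, _⟩ | h
      · exact h' h
      · omega
    · exact h' ((hmg j).2 (Or.inl ⟨h, hjp⟩))
  have hhi1 := hhi _ hv
  have hhi2 := hhi e (hE he)
  simp only at hhi1
  have heB := (hB2 e (hE he)).1
  simp only [D] at hlt
  rw [hhi1, hhi2, hlo, abs_of_nonneg (by omega : 0 ≤ B - e.2),
    abs_of_nonneg (by omega : 0 ≤ B - p)] at hlt
  have a4 := lo_le_right (symmDiff g e.1) B e.2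
  have hn : p < lo (symmDiff g e.1) B e.2 := by omega
  refine ⟨e, he, ?_⟩
  intro j hj
  have heq : (j ∈ g ↔ j ∈ e.1) := by
    by_contra hne
    have : j ∈ symmDiff g e.1 := by
      rw [mem_symmDiff]; tauto
    have := lo_le_mem (symmDiff g e.1) B e.2 this
    omega
  rw [← heq, hmg]
  constructor
  · rintro (h | h)
    · exact h.1
    · omega
  · intro h; exact Or.inl ⟨h, hj⟩

theorem count (T E : Finset Vtx) (hE : E ⊆ T)
    (hfin : ∀ v ∈ T, v ∉ E → {u : Vtx | ∀ w ∈ T, D u v ≤ D u w}.Finite) :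
    T.card ≤ E.card + E.card ^ 3 := by
  have key : ∀ v : Vtx, v ∈ T \ E → ∃ e : Vtx × Vtx × Vtx, e ∈ E ×ˢ E ×ˢ E ∧
      (∀ j, v.2 ≤ j → (j ∈ e.1.1 ↔ j ∈ v.1)) ∧ (v.2 - 1 ∉ e.1.1) ∧
      (∀ j, v.2 ≤ j → (j ∈ e.2.1.1 ↔ j ∈ v.1)) ∧ (v.2 - 1 ∈ e.2.1.1) ∧
      (∀ j, j < v.2 → (j ∈ e.2.2.1 ↔ j ∈ v.1)) := by
    intro v hv
    rw [mem_sdiff] at hv
    obtain ⟨e0, he0, h01, h02⟩ := lowtest T E hE hfin v hv.1 hv.2 ∅ (by simp)
    obtain ⟨e1, he1, h11, h12⟩ := lowtest T E hE hfin v hv.1 hv.2 {v.2 - 1} (by simp)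
    obtain ⟨e2, he2, h21⟩ := hightest T E hE hfin v hv.1 hv.2
    refine ⟨(e0, e1, e2), by simp [he0, he1, he2], h01, ?_, h11, ?_, h21⟩
    · rw [h02]; simp
    · rw [h12]; simp
  choose! F hF using key
  have hinj : Set.InjOn F ↑(T \ E) := by
    intro v hv w hw hvw
    obtain ⟨_, a1, a2, a3, a4, a5⟩ := hF v hv
    obtain ⟨_, b1, b2, b3, b4, b5⟩ := hF w hw
    rw [← hvw] at b1 b2 b3 b4 b5
    have hp : v.2 = w.2 := by
      rcases lt_trichotomy v.2 w.2 with h | h | h
      · exfalso
        exact b2 ((a1 _ (by omega)).2 ((a3 _ (by omega)).1 b4))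
      · exact h
      · exfalso
        exact a2 ((b1 _ (by omega)).2 ((b3 _ (by omega)).1 a4))
    have hf : v.1 = w.1 := by
      ext j
      rcases le_or_gt v.2 j with h | h
      · rw [← a1 j h, ← b1 j (by omega)]
      · rw [← a5 j h, ← b5 j (by omega)]
    exact Prod.ext hf hp
  have h1 : (T \ E).card ≤ (E ×ˢ E ×ˢ E).card :=
    Finset.card_le_card_of_injOn F (fun v hv => (hF v hv).1) hinj
  have h2 : T.card = (T \ E).card + E.card := (Finset.card_sdiff_add_card_eq_card hE).symm
  rw [h2]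
  simp only [card_product] at h1
  nlinarith [h1]

end Pool.Agent.X258.LLV
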