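import Mathlib

/-! The Diestel-Leader graph DL(2,2) (a Cayley graph of the lamplighter group) and its metric. -/

namespace Pool.Agent.X258.LLV

open Finset

/-- smallest of the two positions and of the elements of `S` -/
def lo (S : Finset ℤ) (p q : ℤ) : ℤ := (insert p (insert q S)).min' ⟨p, by simp⟩

/-- largest of the two positions and of the numbers `j + 1`, `j ∈ S` -/
def hi (S : Finset ℤ) (p q : ℤ) : ℤ :=
  (insert p (insert q (S.image (fun j => j + 1)))).max' ⟨p, by simp⟩

theorem lo_le_left (S : Finset ℤ) (p q : ℤ) : lo S p q ≤ p := min'_le _ _ (by simp)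
theorem lo_le_right (S : Finset ℤ) (p q : ℤ) : lo S p q ≤ q := min'_le _ _ (by simp)
theorem lo_le_mem (S : Finset ℤ) (p q : ℤ) {j : ℤ} (h : j ∈ S) : lo S p q ≤ j :=
  min'_le _ _ (by simp [h])
theorem lo_cases (S : Finset ℤ) (p q : ℤ) : lo S p q = p ∨ lo S p q = q ∨ lo S p q ∈ S := by
  have := min'_mem (insert p (insert q S)) ⟨p, by simp⟩
  simpa [lo] using this

theorem le_hi_left (S : Finset ℤ) (p q : ℤ) : p ≤ hi S p q := le_max' _ _ (by simp)
theorem le_hi_right (S : Finset ℤ) (p q : ℤ) : q ≤ hi S p q := le_max' _ _ (by simp)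
theorem le_hi_mem (S : Finset ℤ) (p q : ℤ) {j : ℤ} (h : j ∈ S) : j + 1 ≤ hi S p q :=
  le_max' _ _ (by
    simp only [mem_insert, mem_image]
    exact Or.inr (Or.inr ⟨j, h, rfl⟩))
theorem hi_cases (S : Finset ℤ) (p q : ℤ) :
    hi S p q = p ∨ hi S p q = q ∨ ∃ j ∈ S, hi S p q = j + 1 := by
  have h : hi S p q ∈ insert p (insert q (S.image (fun j => j + 1))) := max'_mem _ _
  rcases mem_insert.1 h with h | h
  · exact Or.inl h
  rcases mem_insert.1 h with h | h
  · exact Or.inr (Or.inl h)
  · obtain ⟨j, hj, hj'⟩ := mem_image.1 h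
    exact Or.inr (Or.inr ⟨j, hj, hj'.symm⟩)

theorem lo_eq {S : Finset ℤ} {p q m : ℤ} (h1 : m ≤ p) (h2 : m ≤ q) (h3 : ∀ j ∈ S, m ≤ j)
    (h4 : m = p ∨ m = q ∨ m ∈ S) : lo S p q = m := by
  apply le_antisymm
  · rcases h4 with h | h | h
    · exact h ▸ lo_le_left S p q
    · exact h ▸ lo_le_right S p q
    · exact lo_le_mem S p q h
  · rcases lo_cases S p q with h | h | h
    · omega
    · omega
    · exact h3 _ h

theorem hi_eq {S : Finset ℤ} {p q n : ℤ} (h1 : p ≤ n) (h2 : q ≤ n) (h3 : ∀ j ∈ S, j + 1 ≤ n)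
    (h4 : n = p ∨ n = q ∨ ∃ j ∈ S, n = j + 1) : hi S p q = n := by
  apply le_antisymm
  · rcases hi_cases S p q with h | h | ⟨j, h, h'⟩
    · omega
    · omega
    · rw [h']; exact h3 _ h
  · rcases h4 with h | h | ⟨j, h, h'⟩
    · exact h ▸ le_hi_left S p q
    · exact h ▸ le_hi_right S p q
    · rw [h']; exact le_hi_mem S p q h

theorem hi_le {S : Finset ℤ} {p q n : ℤ} (h1 : p ≤ n) (h2 : q ≤ n) (h3 : ∀ j ∈ S, j + 1 ≤ n) :
    hi S p q ≤ n := by
  rcases hi_cases S p q with h | h | ⟨j, h, h'⟩
  · omega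
  · omega
  · rw [h']; exact h3 _ h

theorem le_lo {S : Finset ℤ} {p q m : ℤ} (h1 : m ≤ p) (h2 : m ≤ q) (h3 : ∀ j ∈ S, m ≤ j) :
    m ≤ lo S p q := by
  rcases lo_cases S p q with h | h | h
  · omega
  · omega
  · exact h3 _ h

/-- vertices: the finite set of lamps that are on, and the position of the lamplighter -/
abbrev Vtx : Type := Finset ℤ × ℤ

/-- the step from `u` to `v` goes up by one, and changes at most the lamp passed -/
def Up (u v : Vtx) : Prop := v.2 = u.2 + 1 ∧ ∀ j, j ≠ u.2 → (j ∈ u.1 ↔ j ∈ v.1)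

/-- the lamplighter graph: one moves up or down by one, and may change the lamp passed -/
def LG : SimpleGraph Vtx where
  Adj u v := Up u v ∨ Up v u
  symm := ⟨fun _ _ h => h.symm⟩
  loopless := ⟨fun u h => by
    rcases h with h | h <;> · have := h.1; omega⟩

/-- the metric -/
def D (u v : Vtx) : ℤ :=
  2 * (hi (symmDiff u.1 v.1) u.2 v.2 - lo (symmDiff u.1 v.1) u.2 v.2) - |u.2 - v.2|

theorem D_up (u v w : Vtx) (h : Up v w) : D u w ≤ D u v + 1 ∧ D u v ≤ D u w + 1 := by
  obtain ⟨h1, h2⟩ := h
  obtain ⟨A, p⟩ := u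
  obtain ⟨B, q⟩ := v
  obtain ⟨C, r⟩ := w
  simp only at h1 h2
  subst h1
  have hsub : ∀ j, j ≠ q → (j ∈ symmDiff A B ↔ j ∈ symmDiff A C) := by
    intro j hj
    rw [mem_symmDiff, mem_symmDiff, h2 j hj]
  simp only [D]
  set S := symmDiff A B
  set S' := symmDiff A C
  have a1 := lo_le_left S p q
  have a2 := lo_le_right S p q
  have a3 := le_hi_left S p q
  have a4 := le_hi_right S p q
  have b1 := lo_le_left S' p (q+1)
  have b2 := lo_le_right S' p (q+1)
  have b3 := le_hi_left S' p (q+1)
  have b4 := le_hi_right S' p (q+1)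
  -- comparisons
  have c1 : lo S p q ≤ lo S' p (q+1) := by
    apply le_lo a1 (by omega)
    intro j hj
    by_cases hjq : j = q
    · omega
    · exact lo_le_mem _ _ _ ((hsub j hjq).2 hj)
  have c2 : hi S p q ≤ hi S' p (q+1) := by
    apply hi_le b3 (by omega)
    intro j hj
    by_cases hjq : j = q
    · omega
    · exact le_hi_mem _ _ _ ((hsub j hjq).1 hj)
  have c3 : hi S' p (q+1) ≤ max (hi S p q) (q+1) := by
    apply hi_le (le_trans a3 (le_max_left _ _)) (le_max_right _ _)
    intro j hj
    by_cases hjq : j = q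
    · rw [hjq]; exact le_max_right _ _
    · exact le_trans (le_hi_mem _ _ _ ((hsub j hjq).2 hj)) (le_max_left _ _)
  have c4 : min (lo S' p (q+1)) q ≤ lo S p q := by
    apply le_lo (le_trans (min_le_left _ _) b1) (min_le_right _ _)
    intro j hj
    by_cases hjq : j = q
    · rw [hjq]; exact min_le_right _ _
    · exact le_trans (min_le_left _ _) (lo_le_mem _ _ _ ((hsub j hjq).1 hj))
  rcases le_or_gt p q with hpq | hpq
  · -- q ≥ p
    rw [abs_of_nonpos (by omega : p - q ≤ 0), abs_of_nonpos (by omega : p - (q+1) ≤ 0)]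
    have d1 : hi S' p (q+1) ≤ hi S p q + 1 := by
      rcases le_total (hi S p q) (q+1) with h | h
      · rw [max_eq_right h] at c3; omega
      · rw [max_eq_left h] at c3; omega
    have d2 : lo S' p (q+1) ≤ lo S p q := by
      have : lo S' p (q+1) ≤ q := by omega
      rw [min_eq_left this] at c4; exact c4
    omega
  · rw [abs_of_nonneg (by omega : 0 ≤ p - q), abs_of_nonneg (by omega : 0 ≤ p - (q+1))]
    have d1 : hi S' p (q+1) ≤ hi S p q := by
      have : q + 1 ≤ hi S p q := by omega
      rw [max_eq_left this] at c3; exact c3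
    have d2 : lo S' p (q+1) ≤ lo S p q + 1 := by
      rcases le_total (lo S' p (q+1)) q with h | h
      · rw [min_eq_left h] at c4; omega
      · rw [min_eq_right h] at c4; omega
    omega

theorem D_adj (u v w : Vtx) (h : LG.Adj v w) : D u w ≤ D u v + 1 := by
  rcases h with h | h
  · exact (D_up u v w h).1
  · exact (D_up u w v h).2

theorem D_self (u : Vtx) : D u u = 0 := by
  obtain ⟨A, p⟩ := u
  simp only [D, symmDiff_self]
  have h1 : hi (⊥ : Finset ℤ) p p = p := hi_eq le_rfl le_rfl (by simp) (Or.inl rfl)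
  have h2 : lo (⊥ : Finset ℤ) p p = p := lo_eq le_rfl le_rfl (by simp) (Or.inl rfl)
  rw [h1, h2]; simp

theorem D_nonneg (u v : Vtx) : 0 ≤ D u v := by
  obtain ⟨A, p⟩ := u
  obtain ⟨B, q⟩ := v
  simp only [D]
  have a1 := lo_le_left (symmDiff A B) p q
  have a2 := lo_le_right (symmDiff A B) p q
  have a3 := le_hi_left (symmDiff A B) p q
  have a4 := le_hi_right (symmDiff A B) p q
  rcases abs_cases (p - q) with h | h <;> omega

theorem D_le_length (u v : Vtx) (w : LG.Walk u v) : D u v ≤ w.length := by
  have key : ∀ (a b : Vtx) (w : LG.Walk a b), D u b ≤ D u a + w.length := by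
    intro a b w
    induction w with
    | nil => simp
    | cons h w ih =>
      have := D_adj u _ _ h
      rw [SimpleGraph.Walk.length_cons]
      push_cast
      omega
  have := key u v w
  rw [D_self] at this
  omega

/-- one can always move closer -/
theorem exists_closer (u v : Vtx) (h : u ≠ v) : ∃ w, LG.Adj v w ∧ D u w = D u v - 1 := by
  obtain ⟨A, p⟩ := u
  obtain ⟨B, q⟩ := v
  set S := symmDiff A B with hS
  have a1 := lo_le_left S p q
  have a2 := lo_le_right S p q
  have a3 := le_hi_left S p q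
  have a4 := le_hi_right S p q
  have hmS : ∀ j, (j ∈ S ↔ ((j ∈ A ∧ j ∉ B) ∨ (j ∈ B ∧ j ∉ A))) := fun j => mem_symmDiff
  rcases le_or_gt q p with hqp | hqp
  · rcases lt_or_eq_of_le a2 with hm | hm
    · -- step down, lamps unchanged
      refine ⟨(B, q - 1), Or.inr ⟨by simp, fun j _ => Iff.rfl⟩, ?_⟩
      simp only [D]
      rw [← hS]
      have e1 : hi S p (q - 1) = hi S p q := by
        apply hi_eq a3 (by omega) (fun j hj => le_hi_mem _ _ _ hj)
        rcases hi_cases S p q with h | h | h
        · exact Or.inl h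
        · left; omega
        · exact Or.inr (Or.inr h)
      have e2 : lo S p (q - 1) = lo S p q := by
        apply lo_eq a1 (by omega) (fun j hj => lo_le_mem _ _ _ hj)
        rcases lo_cases S p q with h | h | h
        · exact Or.inl h
        · omega
        · exact Or.inr (Or.inr h)
      rw [e1, e2, abs_of_nonneg (by omega : 0 ≤ p - (q-1)), abs_of_nonneg (by omega : 0 ≤ p - q)]
      omega
    · -- at the lower end: step up, correcting the lamp at q
      -- new configuration
      set C : Finset ℤ := (B.erase q) ∪ (A ∩ {q}) with hC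
      have hCj : ∀ j, j ≠ q → (j ∈ B ↔ j ∈ C) := by
        intro j hj
        simp [hC, hj]
      have hCq : (q ∈ C ↔ q ∈ A) := by simp [hC]
      have hS' : ∀ j, (j ∈ symmDiff A C ↔ (j ∈ S ∧ j ≠ q)) := by
        intro j
        rw [mem_symmDiff, hmS]
        by_cases hj : j = q
        · subst hj; rw [hCq]; tauto
        · rw [← hCj j hj]; tauto
      refine ⟨(C, q + 1), Or.inl ⟨rfl, hCj⟩, ?_⟩
      simp only [D]
      rw [← hS]
      set S' := symmDiff A C with hS'def
      have hlow : ∀ j ∈ S, q ≤ j := fun j hj => hm ▸ lo_le_mem S p q hj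
      rcases lt_or_eq_of_le hqp with hlt | heq
      · have e1 : hi S' p (q + 1) = hi S p q := by
          apply hi_eq a3 (by omega) (fun j hj => le_hi_mem _ _ _ ((hS' j).1 hj).1)
          rcases hi_cases S p q with h | h | ⟨j, hj, h⟩
          · exact Or.inl h
          · left; omega
          · by_cases hjq : j = q
            · left; omega
            · exact Or.inr (Or.inr ⟨j, (hS' j).2 ⟨hj, hjq⟩, h⟩)
        have e2 : lo S' p (q + 1) = q + 1 := by
          apply lo_eq (by omega) le_rfl ?_ (Or.inr (Or.inl rfl))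
          intro j hj
          have := hlow j ((hS' j).1 hj).1
          have h2 := ((hS' j).1 hj).2
          omega
        rw [e1, e2, hm, abs_of_nonneg (by omega : 0 ≤ p - (q+1)),
          abs_of_nonneg (by omega : 0 ≤ p - q)]
        omega
      · -- p = q
        subst heq
        have hne : S.Nonempty := by
          rw [Finset.nonempty_iff_ne_empty]
          intro h0
          apply h
          have : A = B := by
            rw [hS] at h0
            exact symmDiff_eq_bot.1 h0
          rw [this]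
        obtain ⟨j0, hj0⟩ := hne
        have hj1 := hlow j0 hj0
        have hj2 := le_hi_mem S q q hj0
        have e1 : hi S' q (q + 1) = hi S q q := by
          apply hi_eq a3 (by omega) (fun j hj => le_hi_mem _ _ _ ((hS' j).1 hj).1)
          rcases hi_cases S q q with h | h | ⟨j, hj, h⟩
          · omega
          · omega
          · by_cases hjq : j = q
            · right; left; omega
            · exact Or.inr (Or.inr ⟨j, (hS' j).2 ⟨hj, hjq⟩, h⟩)
        have e2 : lo S' q (q + 1) = q := by
          apply lo_eq le_rfl (by omega) ?_ (Or.inl rfl)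
          intro j hj
          exact hlow j ((hS' j).1 hj).1
        rw [e1, e2, hm]
        simp
  · rcases lt_or_eq_of_le a4 with hm | hm
    · -- step up, lamps unchanged
      refine ⟨(B, q + 1), Or.inl ⟨rfl, fun j _ => Iff.rfl⟩, ?_⟩
      simp only [D]
      rw [← hS]
      have e1 : hi S p (q + 1) = hi S p q := by
        apply hi_eq a3 (by omega) (fun j hj => le_hi_mem _ _ _ hj)
        rcases hi_cases S p q with h | h | h
        · exact Or.inl h
        · omega
        · exact Or.inr (Or.inr h)
      have e2 : lo S p (q + 1) = lo S p q := by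
        apply lo_eq a1 (by omega) (fun j hj => lo_le_mem _ _ _ hj)
        rcases lo_cases S p q with h | h | h
        · exact Or.inl h
        · left; omega
        · exact Or.inr (Or.inr h)
      rw [e1, e2, abs_of_nonpos (by omega : p - (q+1) ≤ 0), abs_of_nonpos (by omega : p - q ≤ 0)]
      omega
    · -- at the upper end: step down, correcting the lamp at q - 1
      set C : Finset ℤ := (B.erase (q-1)) ∪ (A ∩ {q-1}) with hC
      have hCj : ∀ j, j ≠ q - 1 → (j ∈ C ↔ j ∈ B) := by
        intro j hj
        simp [hC, hj]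
      have hCq : (q - 1 ∈ C ↔ q - 1 ∈ A) := by simp [hC]
      have hS' : ∀ j, (j ∈ symmDiff A C ↔ (j ∈ S ∧ j ≠ q - 1)) := by
        intro j
        rw [mem_symmDiff, hmS]
        by_cases hj : j = q - 1
        · subst hj; rw [hCq]; tauto
        · rw [hCj j hj]; tauto
      refine ⟨(C, q - 1), Or.inr ⟨by simp, hCj⟩, ?_⟩
      simp only [D]
      rw [← hS]
      set S' := symmDiff A C with hS'def
      have hhigh : ∀ j ∈ S, j + 1 ≤ q := fun j hj => hm ▸ le_hi_mem S p q hj
      have e2 : lo S' p (q - 1) = lo S p q := by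
        apply lo_eq a1 (by omega) (fun j hj => lo_le_mem _ _ _ ((hS' j).1 hj).1)
        rcases lo_cases S p q with h | h | h
        · exact Or.inl h
        · left; omega
        · by_cases hjq : lo S p q = q - 1
          · left; omega
          · exact Or.inr (Or.inr ((hS' _).2 ⟨h, hjq⟩))
      have e1 : hi S' p (q - 1) = q - 1 := by
        apply hi_eq (by omega) le_rfl ?_ (Or.inr (Or.inl rfl))
        intro j hj
        have := hhigh j ((hS' j).1 hj).1
        have h2 := ((hS' j).1 hj).2
        omega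
      rw [e1, e2, ← hm, abs_of_nonpos (by omega : p - (q-1) ≤ 0),
        abs_of_nonpos (by omega : p - q ≤ 0)]
      omega

theorem exists_walk (n : ℕ) : ∀ (u v : Vtx), D u v = n → ∃ w : LG.Walk u v, w.length = n := by
  induction n with
  | zero =>
    intro u v h
    by_cases huv : u = v
    · subst huv; exact ⟨SimpleGraph.Walk.nil, rfl⟩
    · obtain ⟨w, _, h2⟩ := exists_closer u v huv
      have := D_nonneg u w
      simp only [Nat.cast_zero] at h
      omega
  | succ n ih =>
    intro u v h
    have huv : u ≠ v := by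
      rintro rfl
      rw [D_self] at h
      push_cast at h
      omega
    obtain ⟨w, h1, h2⟩ := exists_closer u v huv
    obtain ⟨W, hW⟩ := ih u w (by rw [h2, h]; push_cast; ring)
    exact ⟨W.concat h1.symm, by rw [SimpleGraph.Walk.length_concat, hW]⟩

theorem reachable (u v : Vtx) : LG.Reachable u v := by
  obtain ⟨w, _⟩ := exists_walk (D u v).toNat u v (by rw [Int.toNat_of_nonneg (D_nonneg u v)])
  exact ⟨w⟩

theorem connected : LG.Connected := by
  have : Nonempty Vtx := ⟨(∅, 0)⟩
  exact ⟨reachable⟩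

theorem dist_eq (u v : Vtx) : (LG.dist u v : ℤ) = D u v := by
  obtain ⟨w, hw⟩ := exists_walk (D u v).toNat u v (by rw [Int.toNat_of_nonneg (D_nonneg u v)])
  have h1 : LG.dist u v ≤ (D u v).toNat := hw ▸ SimpleGraph.dist_le w
  obtain ⟨w', hw'⟩ := (reachable u v).exists_walk_length_eq_dist
  have h2 := D_le_length u v w'
  rw [hw'] at h2
  have h3 := D_nonneg u v
  omega

/-! ### transitivity and local finiteness -/

/-- translation of a configuration -/
def sh (k : ℤ) (A : Finset ℤ) : Finset ℤ := A.map (Equiv.addRight k).toEmbedding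

theorem mem_sh {k : ℤ} {A : Finset ℤ} {j : ℤ} : j ∈ sh k A ↔ j - k ∈ A := by
  simp only [sh, mem_map, Equiv.coe_toEmbedding, Equiv.coe_addRight]
  constructor
  · rintro ⟨a, ha, rfl⟩; simpa using ha
  · intro h; exact ⟨j - k, h, by ring⟩

/-- the automorphism -/
def auto (k : ℤ) (C : Finset ℤ) : Vtx ≃ Vtx where
  toFun u := (symmDiff (sh k u.1) C, u.2 + k)
  invFun u := (sh (-k) (symmDiff u.1 C), u.2 - k)
  left_inv u := by
    obtain ⟨A, p⟩ := u
    simp only [Prod.mk.injEq]
    refine ⟨?_, by ring⟩
    ext j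
    rw [mem_sh, symmDiff_assoc, symmDiff_self, symmDiff_bot, mem_sh]
    simp
  right_inv u := by
    obtain ⟨A, p⟩ := u
    simp only [Prod.mk.injEq]
    refine ⟨?_, by ring⟩
    ext j
    rw [mem_symmDiff, mem_sh, mem_sh, mem_symmDiff]
    simp only [sub_neg_eq_add, sub_add_cancel]
    tauto

theorem auto_up (k : ℤ) (C : Finset ℤ) (u v : Vtx) : Up (auto k C u) (auto k C v) ↔ Up u v := by
  obtain ⟨A, p⟩ := u
  obtain ⟨B, q⟩ := v
  simp only [Up, auto, Equiv.coe_fn_mk]
  constructor
  · rintro ⟨h1, h2⟩
    refine ⟨by omega, fun j hj => ?_⟩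
    have := h2 (j + k) (by omega)
    rw [mem_symmDiff, mem_symmDiff, mem_sh, mem_sh] at this
    simp only [add_sub_cancel_right] at this
    tauto
  · rintro ⟨h1, h2⟩
    refine ⟨by omega, fun j hj => ?_⟩
    have := h2 (j - k) (by omega)
    rw [mem_symmDiff, mem_symmDiff, mem_sh, mem_sh]
    tauto

theorem transitive (u v : Vtx) : ∃ φ : LG ≃g LG, φ u = v := by
  obtain ⟨A, p⟩ := u
  obtain ⟨B, q⟩ := v
  refine ⟨⟨auto (q - p) (symmDiff (sh (q - p) A) B), ?_⟩, ?_⟩
  · intro a b
    simp only [LG]
    rw [auto_up, auto_up]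
  · show (auto (q - p) (symmDiff (sh (q - p) A) B)) (A, p) = (B, q)
    simp only [auto, Equiv.coe_fn_mk, symmDiff_symmDiff_cancel_left]
    simp

theorem locallyFinite (v : Vtx) : (LG.neighborSet v).Finite := by
  obtain ⟨A, p⟩ := v
  apply Set.Finite.subset
    (s := (↑(({A, insert p A, A.erase p, insert (p-1) A, A.erase (p-1)} : Finset (Finset ℤ)) ×ˢ
      ({p + 1, p - 1} : Finset ℤ)) : Set Vtx)) (Finset.finite_toSet _)
  rintro ⟨B, q⟩ h
  have key : ∀ (r : ℤ) (X Y : Finset ℤ), (∀ j, j ≠ r → (j ∈ X ↔ j ∈ Y)) →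
      (Y = insert r X ∨ Y = X.erase r) := by
    intro r X Y hXY
    by_cases hr : r ∈ Y
    · left
      ext j
      by_cases hj : j = r
      · subst hj; simp [hr]
      · rw [mem_insert, ← hXY j hj]; tauto
    · right
      ext j
      by_cases hj : j = r
      · subst hj; simp [hr]
      · rw [mem_erase, ← hXY j hj]; tauto
  simp only [SimpleGraph.mem_neighborSet, LG] at h
  simp only [coe_product, Set.mem_prod, mem_coe, mem_insert, mem_singleton]
  rcases h with ⟨h1, h2⟩ | ⟨h1, h2⟩
  · simp only at h1 h2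
    refine ⟨?_, Or.inl h1⟩
    rcases key p A B h2 with h | h
    · right; left; exact h
    · right; right; left; exact h
  · simp only at h1 h2
    have hq : q = p - 1 := by omega
    subst hq
    refine ⟨?_, Or.inr rfl⟩
    rcases key (p-1) A B (fun j hj => (h2 j hj).symm) with h | h
    · right; right; right; left; exact h
    · right; right; right; right; exact h

end Pool.Agent.X258.LLV
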