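import Pool.Agent.X258.LLV.TreeCells

/-! A bounded non-constant harmonic function on the 3-regular tree and on its strong product with
the integer line. -/

namespace Pool.Agent.X258.LLV

open Finset

/-- parent -/
def par (u : VT) : VT := ⟨(u.1.1.erase (u.1.2 - 1), u.1.2 - 1), fun j hj => by
  have h1 := u.2 j (mem_of_mem_erase hj)
  have h2 := ne_of_mem_erase hj
  show j < u.1.2 - 1
  omega⟩

/-- first child -/
def ch0 (u : VT) : VT := ⟨(u.1.1, u.1.2 + 1), fun j hj => by
  have h1 := u.2 j hj
  show j < u.1.2 + 1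
  omega⟩

/-- second child -/
def ch1 (u : VT) : VT := ⟨(insert u.1.2 u.1.1, u.1.2 + 1), fun j hj => by
  show j < u.1.2 + 1
  rcases mem_insert.1 hj with h | h
  · omega
  · have := u.2 j h; omega⟩

theorem adjT_iff (u w : VT) : AdjT u w ↔ (w = par u ∨ w = ch0 u ∨ w = ch1 u) := by
  obtain ⟨⟨A, p⟩, hA⟩ := u
  obtain ⟨⟨B, q⟩, hB⟩ := w
  simp only at hA hB
  constructor
  · rintro (⟨h1, h2⟩ | ⟨h1, h2⟩)
    · simp only at h1 h2
      subst h1
      right
      by_cases hp : p ∈ B
      · right
        apply Subtype.ext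
        apply Prod.ext
        · ext j
          show j ∈ B ↔ j ∈ insert p A
          rw [mem_insert]
          by_cases hj : j = p
          · subst hj; simp [hp]
          · rw [h2 j hj]; tauto
        · rfl
      · left
        apply Subtype.ext
        apply Prod.ext
        · ext j
          show j ∈ B ↔ j ∈ A
          by_cases hj : j = p
          · subst hj
            constructor
            · intro h; exact absurd h hp
            · intro h; have := hA _ h; omega
          · exact (h2 j hj).symm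
        · rfl
    · simp only at h1 h2
      have hq : q = p - 1 := by omega
      subst hq
      left
      apply Subtype.ext
      apply Prod.ext
      · ext j
        show j ∈ B ↔ j ∈ A.erase (p - 1)
        rw [mem_erase]
        by_cases hj : j = p - 1
        · subst hj
          constructor
          · intro h; have := hB _ h; omega
          · intro h; exact absurd rfl h.1
        · rw [h2 j hj]; tauto
      · rfl
  · rintro (h | h | h)
    · rw [h]
      refine Or.inr ⟨by simp [par], fun j hj => ?_⟩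
      simp only [par] at hj ⊢
      rw [mem_erase]; tauto
    · rw [h]
      exact Or.inl ⟨by simp [ch0], fun j hj => by simp [ch0]⟩
    · rw [h]
      refine Or.inl ⟨by simp [ch1], fun j hj => ?_⟩
      simp only [ch1] at hj ⊢
      rw [mem_insert]; tauto

theorem par_ne_ch0 (u : VT) : par u ≠ ch0 u := by
  intro h
  have := congrArg (fun x : VT => x.1.2) h
  simp only [par, ch0] at this
  omega
theorem par_ne_ch1 (u : VT) : par u ≠ ch1 u := by
  intro h
  have := congrArg (fun x : VT => x.1.2) h
  simp only [par, ch1] at this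
  omega
theorem ch0_ne_ch1 (u : VT) : ch0 u ≠ ch1 u := by
  intro h
  have h1 := congrArg (fun x : VT => x.1.1) h
  simp only [ch0, ch1] at h1
  have h2 : u.1.2 ∈ u.1.1 := by rw [h1]; exact mem_insert_self _ _
  have := u.2 _ h2
  omega
theorem ne_par (u : VT) : u ≠ par u := by
  intro h
  have := congrArg (fun x : VT => x.1.2) h
  simp only [par] at this
  omega
theorem ne_ch0 (u : VT) : u ≠ ch0 u := by
  intro h
  have := congrArg (fun x : VT => x.1.2) h
  simp only [ch0] at this
  omega
theorem ne_ch1 (u : VT) : u ≠ ch1 u := by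
  intro h
  have := congrArg (fun x : VT => x.1.2) h
  simp only [ch1] at this
  omega

/-- the harmonic function: `3 - 2^(1-k)` on the descendants of the root at distance `k` from it,
`-3 + 2^(2-k)` on the other vertices at distance `k` from the root -/
noncomputable def hT (u : VT) : ℝ :=
  if lo u.1.1 u.1.2 0 = 0 then 3 - (2 : ℝ) ^ (1 - u.1.2)
  else -3 + (2 : ℝ) ^ (2 - u.1.2 + 2 * lo u.1.1 u.1.2 0)

theorem hT_of_zero (u : VT) (h : lo u.1.1 u.1.2 0 = 0) : hT u = 3 - (2 : ℝ) ^ (1 - u.1.2) := by
  simp [hT, h]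

theorem hT_of_neg (u : VT) (m : ℤ) (h : lo u.1.1 u.1.2 0 = m) (hm : m < 0) :
    hT u = -3 + (2 : ℝ) ^ (2 - u.1.2 + 2 * m) := by
  have : m ≠ 0 := by omega
  simp [hT, h, this]

theorem two_zpow_succ (k : ℤ) : (2 : ℝ) ^ (k + 1) = 2 * (2 : ℝ) ^ k := by
  rw [zpow_add_one₀ (by norm_num)]; ring

theorem hT_harmonic (u : VT) : hT (par u) + hT (ch0 u) + hT (ch1 u) = 3 * hT u := by
  obtain ⟨⟨A, p⟩, hA⟩ := u
  simp only at hA
  have a1 := lo_le_left A p 0
  have a2 := lo_le_right A p 0
  have a3 : ∀ j ∈ A, lo A p 0 ≤ j := fun j hj => lo_le_mem A p 0 hj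
  have a4 := lo_cases A p 0
  obtain ⟨m, hm⟩ : ∃ m, lo A p 0 = m := ⟨_, rfl⟩
  rw [hm] at a1 a2 a3 a4
  rcases lt_or_eq_of_le a2 with hneg | hz
  · -- `m < 0`
    rcases lt_or_eq_of_le a1 with hlt | heq
    · have hmA : m ∈ A := by
        rcases a4 with h | h | h
        · omega
        · omega
        · exact h
      have e0 : lo A (p + 1) 0 = m :=
        lo_eq (by omega) (by omega) a3 (Or.inr (Or.inr hmA))
      have e1 : lo (insert p A) (p + 1) 0 = m := by
        apply lo_eq (by omega) (by omega) ?_ (Or.inr (Or.inr (mem_insert_of_mem hmA)))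
        intro j hj
        rcases mem_insert.1 hj with h | h
        · omega
        · exact a3 j h
      have e2 : lo (A.erase (p - 1)) (p - 1) 0 = m := by
        apply lo_eq (by omega) (by omega) (fun j hj => a3 j (mem_of_mem_erase hj))
        by_cases h : m = p - 1
        · exact Or.inl h
        · exact Or.inr (Or.inr (mem_erase.2 ⟨h, hmA⟩))
      rw [hT_of_neg (par ⟨(A, p), hA⟩) m e2 hneg, hT_of_neg (ch0 ⟨(A, p), hA⟩) m e0 hneg,
        hT_of_neg (ch1 ⟨(A, p), hA⟩) m e1 hneg, hT_of_neg ⟨(A, p), hA⟩ m hm hneg]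
      simp only [par, ch0, ch1]
      rw [show 2 - (p - 1) + 2 * m = (2 - (p + 1) + 2 * m) + 1 + 1 by ring,
        show 2 - p + 2 * m = (2 - (p + 1) + 2 * m) + 1 by ring, two_zpow_succ, two_zpow_succ]
      ring
    · -- an ancestor of the root
      subst heq
      have hAe : A = ∅ := by
        apply eq_empty_of_forall_notMem
        intro j hj
        have := a3 j hj
        have := hA j hj
        omega
      subst hAe
      have e2 : lo ((∅ : Finset ℤ).erase (m - 1)) (m - 1) 0 = m - 1 :=
        lo_eq le_rfl (by omega) (by simp) (Or.inl rfl)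
      have e1 : lo (insert m (∅ : Finset ℤ)) (m + 1) 0 = m := by
        apply lo_eq (by omega) (by omega) (by simp) (Or.inr (Or.inr (by simp)))
      have e0 : lo (∅ : Finset ℤ) (m + 1) 0 = m + 1 :=
        lo_eq le_rfl (by omega) (by simp) (Or.inl rfl)
      rw [hT_of_neg (par ⟨(∅, m), hA⟩) (m - 1) e2 (by omega),
        hT_of_neg (ch1 ⟨(∅, m), hA⟩) m e1 hneg, hT_of_neg ⟨(∅, m), hA⟩ m hm hneg]
      simp only [par, ch1]
      by_cases h0 : m + 1 = 0
      · have hm1 : m = -1 := by omega
        subst hm1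
        rw [hT_of_zero (ch0 ⟨(∅, -1), hA⟩)
          (show lo (∅ : Finset ℤ) (-1 + 1) 0 = 0 by rw [e0]; norm_num)]
        simp only [ch0]
        norm_num
      · rw [hT_of_neg (ch0 ⟨(∅, m), hA⟩) (m + 1) e0 (by omega)]
        simp only [ch0]
        rw [show 2 - (m - 1) + 2 * (m - 1) = m + 1 by ring,
          show 2 - (m + 1) + 2 * (m + 1) = m + 1 + 1 + 1 by ring,
          show 2 - (m + 1) + 2 * m = m + 1 by ring,
          show 2 - m + 2 * m = m + 1 + 1 by ring, two_zpow_succ (m + 1 + 1),
          two_zpow_succ (m + 1)]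
        ring
  · subst hz
    have e0 : lo A (p + 1) 0 = 0 := lo_eq (by omega) le_rfl a3 (Or.inr (Or.inl rfl))
    have e1 : lo (insert p A) (p + 1) 0 = 0 := by
      apply lo_eq (by omega) le_rfl ?_ (Or.inr (Or.inl rfl))
      intro j hj
      rcases mem_insert.1 hj with h | h
      · omega
      · exact a3 j h
    rw [hT_of_zero (ch0 ⟨(A, p), hA⟩) e0, hT_of_zero (ch1 ⟨(A, p), hA⟩) e1,
      hT_of_zero ⟨(A, p), hA⟩ hm]
    rcases lt_or_eq_of_le a1 with hp | hp
    · have e2 : lo (A.erase (p - 1)) (p - 1) 0 = 0 :=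
        lo_eq (by omega) le_rfl (fun j hj => a3 j (mem_of_mem_erase hj)) (Or.inr (Or.inl rfl))
      rw [hT_of_zero (par ⟨(A, p), hA⟩) e2]
      simp only [par, ch0, ch1]
      rw [show 1 - (p - 1) = (1 - (p + 1)) + 1 + 1 by ring,
        show 1 - p = (1 - (p + 1)) + 1 by ring, two_zpow_succ, two_zpow_succ]
      ring
    · subst hp
      have e2 : lo (A.erase (0 - 1)) (0 - 1) 0 = -1 :=
        lo_eq (by norm_num) (by norm_num)
          (fun j hj => le_trans (by norm_num) (a3 j (mem_of_mem_erase hj))) (Or.inl (by norm_num))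
      rw [hT_of_neg (par ⟨(A, 0), hA⟩) (-1) e2 (by norm_num)]
      simp only [par, ch0, ch1]
      norm_num

theorem hT_bounded (u : VT) : |hT u| ≤ 3 := by
  obtain ⟨⟨A, p⟩, hA⟩ := u
  have a1 := lo_le_left A p 0
  have a2 := lo_le_right A p 0
  have key : ∀ E : ℤ, E ≤ 1 → 0 < (2 : ℝ) ^ E ∧ (2 : ℝ) ^ E ≤ 2 := by
    intro E hE
    refine ⟨by positivity, ?_⟩
    calc (2 : ℝ) ^ E ≤ (2 : ℝ) ^ (1 : ℤ) := zpow_le_zpow_right₀ (by norm_num) hE
      _ = 2 := by norm_num
  rcases lt_or_eq_of_le a2 with hneg | hz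
  · rw [hT_of_neg _ _ rfl hneg]
    obtain ⟨h1, h2⟩ := key (2 - p + 2 * lo A p 0) (by omega)
    simp only
    rw [abs_le]
    constructor <;> linarith
  · rw [hT_of_zero _ hz]
    obtain ⟨h1, h2⟩ := key (1 - p) (by omega)
    simp only
    rw [abs_le]
    constructor <;> linarith

theorem hT_root : hT root = 1 := by
  have h : lo root.1.1 root.1.2 0 = 0 :=
    lo_eq (by simp [root]) le_rfl (by simp [root]) (Or.inr (Or.inl rfl))
  rw [hT_of_zero _ h]
  simp only [root]
  norm_num

theorem hT_x1 : hT x1 = -1 := by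
  have h : lo x1.1.1 x1.1.2 0 = -1 :=
    lo_eq (by simp [x1]) (by norm_num) (by simp [x1]) (Or.inl (by simp [x1]))
  rw [hT_of_neg _ _ h (by norm_num)]
  simp only [x1]
  norm_num

/-! ### neighbours in the strong product -/

/-- closed neighbourhood in the tree -/
noncomputable def cn (u : VT) : Finset VT := {u, par u, ch0 u, ch1 u}

theorem mem_cn (u w : VT) : w ∈ cn u ↔ (u = w ∨ AdjT u w) := by
  rw [adjT_iff]
  simp only [cn, mem_insert, mem_singleton]
  constructor
  · rintro (h | h | h | h)
    · exact Or.inl h.symm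
    · exact Or.inr (Or.inl h)
    · exact Or.inr (Or.inr (Or.inl h))
    · exact Or.inr (Or.inr (Or.inr h))
  · rintro (h | h | h | h)
    · exact Or.inl h.symm
    · exact Or.inr (Or.inl h)
    · exact Or.inr (Or.inr (Or.inl h))
    · exact Or.inr (Or.inr (Or.inr h))

/-- neighbours in the strong product -/
noncomputable def SN (v : VP) : Finset VP := (cn v.1 ×ˢ Finset.Icc (v.2 - 1) (v.2 + 1)).erase v

theorem SN_eq (v : VP) : Strong.neighborSet v = ↑(SN v) := by
  ext w
  simp only [SN, coe_erase, Set.mem_sdiff, mem_coe, mem_product, mem_cn, mem_Icc,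
    Set.mem_singleton_iff, SimpleGraph.mem_neighborSet, Strong, abs_le]
  constructor
  · rintro ⟨h1, h2, h3, h4⟩
    exact ⟨⟨h2, by omega, by omega⟩, fun h => h1 h.symm⟩
  · rintro ⟨⟨h2, h3, h4⟩, h1⟩
    exact ⟨fun h => h1 h.symm, h2, by omega, by omega⟩

theorem self_mem (v : VP) : v ∈ cn v.1 ×ˢ Finset.Icc (v.2 - 1) (v.2 + 1) := by
  rw [mem_product, mem_cn, mem_Icc]
  exact ⟨Or.inl rfl, by omega, by omega⟩

theorem cn_card (u : VT) : (cn u).card = 4 := by
  unfold cn
  rw [card_insert_of_notMem, card_insert_of_notMem, card_insert_of_notMem, card_singleton]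
  · rw [mem_singleton]; exact ch0_ne_ch1 u
  · rw [mem_insert, mem_singleton]
    rintro (h | h)
    · exact par_ne_ch0 u h
    · exact par_ne_ch1 u h
  · rw [mem_insert, mem_insert, mem_singleton]
    rintro (h | h | h)
    · exact ne_par u h
    · exact ne_ch0 u h
    · exact ne_ch1 u h

theorem cn_sum (u : VT) : ∑ w ∈ cn u, hT w = 4 * hT u := by
  unfold cn
  rw [sum_insert, sum_insert, sum_insert, sum_singleton]
  · have := hT_harmonic u
    linarith
  · rw [mem_singleton]; exact ch0_ne_ch1 u
  · rw [mem_insert, mem_singleton]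
    rintro (h | h)
    · exact par_ne_ch0 u h
    · exact par_ne_ch1 u h
  · rw [mem_insert, mem_insert, mem_singleton]
    rintro (h | h | h)
    · exact ne_par u h
    · exact ne_ch0 u h
    · exact ne_ch1 u h

theorem icc_card (y : ℤ) : (Finset.Icc (y - 1) (y + 1)).card = 3 := by
  rw [Int.card_Icc]
  omega

theorem SN_card (v : VP) : (SN v).card = 11 := by
  rw [SN, card_erase_of_mem (self_mem v), card_product, cn_card, icc_card]

theorem SN_sum (v : VP) : ∑ w ∈ SN v, hT w.1 = 11 * hT v.1 := by
  rw [SN, sum_erase_eq_sub (self_mem v), sum_product]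
  simp only [sum_const, icc_card, nsmul_eq_mul]
  rw [← mul_sum, cn_sum]
  push_cast
  ring

end Pool.Agent.X258.LLV
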