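import Pool.Agent.X258.LLV.Graph

/-! The 3-regular tree, its Cartesian and its strong product with the integer line. -/

namespace Pool.Agent.X258.LLV

open Finset

/-- a graph on which a function behaves like the metric -/
theorem metric_lemma {V : Type*} (G : SimpleGraph V) (D : V → V → ℤ) (h0 : ∀ u, D u u = 0)
    (hn : ∀ u v, 0 ≤ D u v) (hl : ∀ u v w, G.Adj v w → D u w ≤ D u v + 1)
    (hc : ∀ u v, u ≠ v → ∃ w, G.Adj v w ∧ D u w = D u v - 1) :
    (∀ u v, G.Reachable u v) ∧ ∀ u v, (G.dist u v : ℤ) = D u v := by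
  have hw : ∀ (n : ℕ) (u v : V), D u v = n → ∃ w : G.Walk u v, w.length = n := by
    intro n
    induction n with
    | zero =>
      intro u v h
      by_cases huv : u = v
      · subst huv; exact ⟨SimpleGraph.Walk.nil, rfl⟩
      · obtain ⟨w, _, h2⟩ := hc u v huv
        have := hn u w
        simp only [Nat.cast_zero] at h
        omega
    | succ n ih =>
      intro u v h
      have huv : u ≠ v := by
        rintro rfl
        rw [h0] at h
        push_cast at h
        omega
      obtain ⟨w, h1, h2⟩ := hc u v huv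
      obtain ⟨W, hW⟩ := ih u w (by rw [h2, h]; push_cast; ring)
      exact ⟨W.concat h1.symm, by rw [SimpleGraph.Walk.length_concat, hW]⟩
  have hr : ∀ u v, G.Reachable u v := by
    intro u v
    obtain ⟨w, _⟩ := hw (D u v).toNat u v (by rw [Int.toNat_of_nonneg (hn u v)])
    exact ⟨w⟩
  refine ⟨hr, fun u v => ?_⟩
  obtain ⟨w, hw'⟩ := hw (D u v).toNat u v (by rw [Int.toNat_of_nonneg (hn u v)])
  have h1 : G.dist u v ≤ (D u v).toNat := hw' ▸ SimpleGraph.dist_le w
  obtain ⟨w', hw''⟩ := (hr u v).exists_walk_length_eq_dist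
  have key : ∀ (a b : V) (w : G.Walk a b), D u b ≤ D u a + w.length := by
    intro a b w
    induction w with
    | nil => simp
    | cons h w ih =>
      have := hl u _ _ h
      rw [SimpleGraph.Walk.length_cons]
      push_cast
      omega
  have h2 := key u v w'
  rw [h0, hw''] at h2
  have h3 := hn u v
  omega

/-- vertices of the 3-regular tree: a level `p` and a finite set of integers below `p` -/
abbrev VT : Type := {u : Vtx // ∀ j ∈ u.1, j < u.2}

/-- adjacency in the tree: one vertex is a child of the other -/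
def AdjT (u v : VT) : Prop := Up u.1 v.1 ∨ Up v.1 u.1

/-- the metric of the tree -/
def DT (u v : VT) : ℤ := u.1.2 + v.1.2 - 2 * lo (symmDiff u.1.1 v.1.1) u.1.2 v.1.2

theorem DT_nonneg (u v : VT) : 0 ≤ DT u v := by
  simp only [DT]
  have a1 := lo_le_left (symmDiff u.1.1 v.1.1) u.1.2 v.1.2
  have a2 := lo_le_right (symmDiff u.1.1 v.1.1) u.1.2 v.1.2
  omega

theorem DT_self (u : VT) : DT u u = 0 := by
  simp only [DT, symmDiff_self]
  have h2 : lo (⊥ : Finset ℤ) u.1.2 u.1.2 = u.1.2 := lo_eq le_rfl le_rfl (by simp) (Or.inl rfl)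
  rw [h2]; ring

theorem DT_up (u v w : VT) (h : Up v.1 w.1) : DT u w ≤ DT u v + 1 ∧ DT u v ≤ DT u w + 1 := by
  obtain ⟨h1, h2⟩ := h
  obtain ⟨⟨A, p⟩, hA⟩ := u
  obtain ⟨⟨B, q⟩, hB⟩ := v
  obtain ⟨⟨C, r⟩, hC⟩ := w
  simp only at h1 h2
  subst h1
  have hsub : ∀ j, j ≠ q → (j ∈ symmDiff A B ↔ j ∈ symmDiff A C) := by
    intro j hj
    rw [mem_symmDiff, mem_symmDiff, h2 j hj]
  simp only [DT]
  set S := symmDiff A B
  set S' := symmDiff A C
  have a1 := lo_le_left S p q
  have a2 := lo_le_right S p q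
  have b1 := lo_le_left S' p (q+1)
  have b2 := lo_le_right S' p (q+1)
  have c1 : lo S p q ≤ lo S' p (q+1) := by
    apply le_lo a1 (by omega)
    intro j hj
    by_cases hjq : j = q
    · omega
    · exact lo_le_mem _ _ _ ((hsub j hjq).2 hj)
  have c4 : min (lo S' p (q+1)) q ≤ lo S p q := by
    apply le_lo (le_trans (min_le_left _ _) b1) (min_le_right _ _)
    intro j hj
    by_cases hjq : j = q
    · rw [hjq]; exact min_le_right _ _
    · exact le_trans (min_le_left _ _) (lo_le_mem _ _ _ ((hsub j hjq).1 hj))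
  rcases le_total (lo S' p (q+1)) q with h | h
  · rw [min_eq_left h] at c4; omega
  · rw [min_eq_right h] at c4; omega

theorem DT_adj (u v w : VT) (h : AdjT v w) : DT u w ≤ DT u v + 1 := by
  rcases h with h | h
  · exact (DT_up u v w h).1
  · exact (DT_up u w v h).2

theorem DT_closer (u v : VT) (h : u ≠ v) : ∃ w, AdjT v w ∧ DT u w = DT u v - 1 := by
  obtain ⟨⟨A, p⟩, hA⟩ := u
  obtain ⟨⟨B, q⟩, hB⟩ := v
  simp only at hA hB
  set S := symmDiff A B with hS
  have a1 := lo_le_left S p q
  have a2 := lo_le_right S p q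
  have hmS : ∀ j, (j ∈ S ↔ ((j ∈ A ∧ j ∉ B) ∨ (j ∈ B ∧ j ∉ A))) := fun j => mem_symmDiff
  rcases lt_or_eq_of_le a2 with hm | hm
  · -- move to the parent
    have hC : ∀ j ∈ B.erase (q - 1), j < q - 1 := by
      intro j hj
      have := hB j (mem_of_mem_erase hj)
      have := ne_of_mem_erase hj
      omega
    refine ⟨⟨(B.erase (q - 1), q - 1), hC⟩, Or.inr ⟨by simp, fun j hj => ?_⟩, ?_⟩
    · simp only at hj ⊢
      rw [mem_erase]; tauto
    · simp only [DT]
      rw [← hS]
      have hS' : ∀ j, j ≠ q - 1 → (j ∈ symmDiff A (B.erase (q - 1)) ↔ j ∈ S) := by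
        intro j hj
        rw [mem_symmDiff, hmS, mem_erase]; tauto
      have e2 : lo (symmDiff A (B.erase (q - 1))) p (q - 1) = lo S p q := by
        apply lo_eq a1 (by omega)
        · intro j hj
          by_cases hjq : j = q - 1
          · omega
          · exact lo_le_mem _ _ _ ((hS' j hjq).1 hj)
        · rcases lo_cases S p q with h | h | h
          · exact Or.inl h
          · omega
          · by_cases hjq : lo S p q = q - 1
            · exact Or.inr (Or.inl hjq)
            · exact Or.inr (Or.inr ((hS' _ hjq).2 h))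
      rw [e2]
      ring
  · -- `v` is an ancestor of `u`
    have hlow : ∀ j ∈ S, q ≤ j := fun j hj => hm ▸ lo_le_mem S p q hj
    have hqp : q ≤ p := by omega
    have hlt : q < p := by
      rcases lt_or_eq_of_le hqp with h' | h'
      · exact h'
      · exfalso
        apply h
        subst h'
        have : A = B := by
          ext j
          by_contra hne
          have hj : j ∈ S := by rw [hmS]; tauto
          have h1 := hlow j hj
          rcases (hmS j).1 hj with ⟨h2, _⟩ | ⟨h2, _⟩
          · have := hA j h2; omega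
          · have := hB j h2; omega
        subst this
        rfl
    set C : Finset ℤ := B ∪ (A ∩ {q}) with hC
    have hCm : ∀ j, j ∈ C ↔ (j ∈ B ∨ (j ∈ A ∧ j = q)) := by
      intro j
      rw [hC, mem_union, mem_inter, mem_singleton]
    have hCp : ∀ j ∈ C, j < q + 1 := by
      intro j hj
      rcases (hCm j).1 hj with h | ⟨_, h⟩
      · have := hB j h; omega
      · omega
    refine ⟨⟨(C, q + 1), hCp⟩, Or.inl ⟨rfl, fun j hj => ?_⟩, ?_⟩
    · simp only at hj ⊢
      rw [hCm]; tauto
    · simp only [DT]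
      rw [← hS]
      have e2 : lo (symmDiff A C) p (q + 1) = q + 1 := by
        apply lo_eq (by omega) le_rfl ?_ (Or.inr (Or.inl rfl))
        intro j hj
        have hqB : q ∉ B := fun h => by have := hB q h; omega
        have hjS : j ∈ S ∧ j ≠ q := by
          rw [mem_symmDiff, hCm] at hj
          rw [hmS]
          by_cases hjq : j = q
          · subst hjq; tauto
          · tauto
        have := hlow j hjS.1
        have := hjS.2
        omega
      rw [e2, hm]
      ring

/-! ### automorphisms -/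

/-- the automorphism of the tree sending the root to `(C, k)` -/
def autoT (c : VT) : VT ≃ VT where
  toFun u := ⟨((symmDiff (sh c.1.2 u.1.1) c.1.1).filter (fun j => j < u.1.2 + c.1.2),
    u.1.2 + c.1.2), fun j hj => (mem_filter.1 hj).2⟩
  invFun u := ⟨((sh (-c.1.2) (symmDiff u.1.1 c.1.1)).filter (fun j => j < u.1.2 - c.1.2),
    u.1.2 - c.1.2), fun j hj => (mem_filter.1 hj).2⟩
  left_inv u := by
    obtain ⟨⟨A, p⟩, hA⟩ := u
    obtain ⟨⟨C, k⟩, hC⟩ := c
    apply Subtype.ext
    apply Prod.ext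
    · ext j
      simp only [mem_filter, mem_sh, mem_symmDiff, sub_neg_eq_add, add_sub_cancel_right,
        add_lt_add_iff_right]
      have := hA j
      simp only at this
      tauto
    · simp
  right_inv u := by
    obtain ⟨⟨A, p⟩, hA⟩ := u
    obtain ⟨⟨C, k⟩, hC⟩ := c
    apply Subtype.ext
    apply Prod.ext
    · ext j
      simp only [mem_filter, mem_sh, mem_symmDiff, sub_neg_eq_add, sub_add_cancel]
      have h1 := hA j
      simp only at h1
      have h2 : j - k < p - k ↔ j < p := by omega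
      rw [h2]
      tauto
    · simp

theorem autoT_up (c u v : VT) : Up (autoT c u).1 (autoT c v).1 ↔ Up u.1 v.1 := by
  obtain ⟨⟨A, p⟩, hA⟩ := u
  obtain ⟨⟨B, q⟩, hB⟩ := v
  obtain ⟨⟨C, k⟩, hC⟩ := c
  simp only at hA hB
  simp only [Up, autoT, Equiv.coe_fn_mk, mem_filter, mem_sh, mem_symmDiff]
  constructor
  · rintro ⟨h1, h2⟩
    refine ⟨by omega, fun j hj => ?_⟩
    have h3 := h2 (j + k) (by omega)
    simp only [add_sub_cancel_right] at h3
    have h4 : j + k < p + k ↔ j < p := by omega
    have h5 : j + k < q + k ↔ j < q := by omega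
    rw [h4, h5] at h3
    have h6 := hA j
    have h7 := hB j
    rcases lt_or_gt_of_ne hj with h | h
    · have h8 : j < q := by omega
      tauto
    · have h8 : ¬ j < q := by omega
      have h9 : ¬ j < p := by omega
      tauto
  · rintro ⟨h1, h2⟩
    refine ⟨by omega, fun j hj => ?_⟩
    have h3 := h2 (j - k) (by omega)
    rcases lt_or_gt_of_ne hj with h | h
    · have h8 : j < q + k := by omega
      tauto
    · have h8 : ¬ j < q + k := by omega
      have h9 : ¬ j < p + k := by omega
      tauto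

theorem autoT_adj (c u v : VT) : AdjT (autoT c u) (autoT c v) ↔ AdjT u v := by
  simp only [AdjT, autoT_up]

/-- the root -/
def root : VT := ⟨(∅, 0), by simp⟩

theorem autoT_root (c : VT) : autoT c root = c := by
  obtain ⟨⟨C, k⟩, hC⟩ := c
  simp only at hC
  apply Subtype.ext
  apply Prod.ext
  · ext j
    simp only [autoT, root, Equiv.coe_fn_mk, mem_filter, mem_sh, mem_symmDiff, notMem_empty]
    have := hC j
    simp only [zero_add]
    tauto
  · simp [autoT, root]

theorem adjT_finite (u : VT) : {v : VT | AdjT u v}.Finite := by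
  have := (locallyFinite u.1).preimage (f := (Subtype.val : VT → Vtx))
    Subtype.val_injective.injOn
  exact this

/-! ### the two products -/

/-- vertices of the products -/
abbrev VP : Type := VT × ℤ

/-- the Cartesian product of the 3-regular tree with the integer line -/
def Box : SimpleGraph VP where
  Adj u v := (AdjT u.1 v.1 ∧ u.2 = v.2) ∨ (u.1 = v.1 ∧ |u.2 - v.2| = 1)
  symm := ⟨fun u v h => by
    rcases h with ⟨h, h'⟩ | ⟨h, h'⟩
    · exact Or.inl ⟨Or.symm h, h'.symm⟩
    · exact Or.inr ⟨h.symm, by rw [abs_sub_comm]; exact h'⟩⟩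
  loopless := ⟨fun u h => by
    rcases h with ⟨h, _⟩ | ⟨_, h⟩
    · rcases h with h | h <;> · have := h.1; omega
    · simp at h⟩

/-- the strong product of the 3-regular tree with the integer line -/
def Strong : SimpleGraph VP where
  Adj u v := u ≠ v ∧ (u.1 = v.1 ∨ AdjT u.1 v.1) ∧ |u.2 - v.2| ≤ 1
  symm := ⟨fun u v h => ⟨h.1.symm, h.2.1.imp Eq.symm Or.symm, by
    rw [abs_sub_comm]; exact h.2.2⟩⟩
  loopless := ⟨fun u h => h.1 rfl⟩

/-- the metric of the Cartesian product -/
def DB (u v : VP) : ℤ := DT u.1 v.1 + |u.2 - v.2|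

/-- the metric of the strong product -/
def DS (u v : VP) : ℤ := max (DT u.1 v.1) |u.2 - v.2|

theorem abs_closer (a b : ℤ) (h : a ≠ b) : ∃ c, |b - c| = 1 ∧ |a - c| = |a - b| - 1 := by
  rcases lt_or_gt_of_ne h with h | h
  · refine ⟨b - 1, by simp, ?_⟩
    rw [abs_of_nonpos (by omega : a - (b-1) ≤ 0), abs_of_nonpos (by omega : a - b ≤ 0)]
    ring
  · refine ⟨b + 1, by simp, ?_⟩
    rw [abs_of_nonneg (by omega : 0 ≤ a - (b+1)), abs_of_nonneg (by omega : 0 ≤ a - b)]
    ring

theorem box_metric : (∀ u v, Box.Reachable u v) ∧ ∀ u v, (Box.dist u v : ℤ) = DB u v := by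
  apply metric_lemma
  · intro u; simp [DB, DT_self]
  · intro u v
    have := DT_nonneg u.1 v.1
    have := abs_nonneg (u.2 - v.2)
    simp only [DB]; omega
  · intro u v w h
    simp only [DB]
    rcases h with ⟨h, h'⟩ | ⟨h, h'⟩
    · have := DT_adj u.1 _ _ h
      rw [h']; omega
    · rw [h]
      have : |u.2 - w.2| ≤ |u.2 - v.2| + |v.2 - w.2| := abs_sub_le _ _ _
      omega
  · intro u v h
    by_cases h1 : u.1 = v.1
    · have h2 : u.2 ≠ v.2 := fun h2 => h (Prod.ext h1 h2)
      obtain ⟨c, hc1, hc2⟩ := abs_closer u.2 v.2 h2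
      refine ⟨(v.1, c), Or.inr ⟨rfl, hc1⟩, ?_⟩
      simp only [DB]
      omega
    · obtain ⟨w, hw1, hw2⟩ := DT_closer u.1 v.1 h1
      refine ⟨(w, v.2), Or.inl ⟨hw1, rfl⟩, ?_⟩
      simp only [DB]
      omega

theorem strong_metric :
    (∀ u v, Strong.Reachable u v) ∧ ∀ u v, (Strong.dist u v : ℤ) = DS u v := by
  apply metric_lemma
  · intro u; simp [DS, DT_self]
  · intro u v
    exact le_max_of_le_left (DT_nonneg u.1 v.1)
  · intro u v w h
    simp only [DS]
    obtain ⟨_, h1, h2⟩ := h
    apply max_le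
    · rcases h1 with h1 | h1
      · have := le_max_left (DT u.1 v.1) |u.2 - v.2|
        rw [← h1]; omega
      · have := DT_adj u.1 _ _ h1
        have := le_max_left (DT u.1 v.1) |u.2 - v.2|
        omega
    · have h3 : |u.2 - w.2| ≤ |u.2 - v.2| + |v.2 - w.2| := abs_sub_le _ _ _
      have := le_max_right (DT u.1 v.1) |u.2 - v.2|
      omega
  · intro u v h
    have e0 : ∀ x : VT, DT x x = 0 := DT_self
    by_cases h1 : u.1 = v.1
    · have h2 : u.2 ≠ v.2 := fun h2 => h (Prod.ext h1 h2)
      obtain ⟨c, hc1, hc2⟩ := abs_closer u.2 v.2 h2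
      have h3 : v.2 ≠ c := by rintro rfl; simp at hc1
      refine ⟨(v.1, c), ⟨fun hh => h3 (congrArg Prod.snd hh), Or.inl rfl, hc1.le⟩, ?_⟩
      simp only [DS]
      rw [h1, e0]
      have := abs_nonneg (u.2 - c)
      have := abs_nonneg (u.2 - v.2)
      rw [max_eq_right (by omega), max_eq_right (by omega)]
      exact hc2
    · obtain ⟨w, hw1, hw2⟩ := DT_closer u.1 v.1 h1
      have hne : v.1 ≠ w := by
        rintro rfl; omega
      have hpos := DT_nonneg u.1 w
      by_cases h2 : u.2 = v.2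
      · refine ⟨(w, v.2), ⟨fun hh => hne (congrArg Prod.fst hh), Or.inr hw1, by simp⟩, ?_⟩
        simp only [DS]
        rw [h2, sub_self, abs_zero, max_eq_left hpos, max_eq_left (by omega)]
        exact hw2
      · obtain ⟨c, hc1, hc2⟩ := abs_closer u.2 v.2 h2
        refine ⟨(w, c), ⟨fun hh => hne (congrArg Prod.fst hh), Or.inr hw1, hc1.le⟩, ?_⟩
        simp only [DS]
        rw [hw2, hc2]
        omega

theorem prod_auto (c : VP) : ∃ e : VP ≃ VP, e (root, 0) = c ∧
    (∀ u v, Box.Adj (e u) (e v) ↔ Box.Adj u v) ∧ (∀ u v, Strong.Adj (e u) (e v) ↔ Strong.Adj u v) := by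
  refine ⟨(autoT c.1).prodCongr (Equiv.addRight c.2), ?_, ?_, ?_⟩
  · apply Prod.ext
    · exact autoT_root c.1
    · simp
  · intro u v
    simp only [Box, Equiv.prodCongr_apply, Prod.map_fst, Prod.map_snd, Equiv.coe_addRight,
      autoT_adj, EmbeddingLike.apply_eq_iff_eq, add_left_inj, add_sub_add_right_eq_sub]
  · intro u v
    have hi := ((autoT c.1).prodCongr (Equiv.addRight c.2)).injective.eq_iff (a := u) (b := v)
    simp only [Strong, ne_eq, hi]
    simp only [Equiv.prodCongr_apply, Prod.map_fst, Prod.map_snd, Equiv.coe_addRight,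
      autoT_adj, EmbeddingLike.apply_eq_iff_eq, add_sub_add_right_eq_sub]

theorem transitive_of (G : SimpleGraph VP) (h : ∀ c : VP, ∃ e : VP ≃ VP, e (root, 0) = c ∧
    (∀ u v, G.Adj (e u) (e v) ↔ G.Adj u v)) (u v : VP) : ∃ φ : G ≃g G, φ u = v := by
  obtain ⟨e, he, he'⟩ := h u
  obtain ⟨f, hf, hf'⟩ := h v
  let E : G ≃g G := ⟨e, fun {a b} => he' a b⟩
  let F : G ≃g G := ⟨f, fun {a b} => hf' a b⟩
  refine ⟨E.symm.trans F, ?_⟩
  have h1 : E.symm u = (root, 0) := by
    rw [← he]
    exact E.symm_apply_apply _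
  show F (E.symm u) = v
  rw [h1]
  exact hf

theorem nbhd_finite (u : VP) :
    {v : VP | (u.1 = v.1 ∨ AdjT u.1 v.1) ∧ |u.2 - v.2| ≤ 1}.Finite := by
  have h1 : ({u.1} ∪ {v : VT | AdjT u.1 v} : Set VT).Finite :=
    (Set.finite_singleton _).union (adjT_finite u.1)
  have h2 : (Set.Icc (u.2 - 1) (u.2 + 1)).Finite := Set.finite_Icc _ _
  apply (h1.prod h2).subset
  rintro v ⟨h3, h4⟩
  rw [abs_le] at h4
  refine ⟨?_, ?_⟩
  · rcases h3 with h3 | h3
    · left; exact h3.symm
    · right; exact h3
  · constructor <;> omega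

theorem box_locallyFinite (v : VP) : (Box.neighborSet v).Finite := by
  apply (nbhd_finite v).subset
  intro w hw
  rcases hw with ⟨h, h'⟩ | ⟨h, h'⟩
  · exact ⟨Or.inr h, by rw [h']; simp⟩
  · exact ⟨Or.inl h, h'.le⟩

theorem strong_locallyFinite (v : VP) : (Strong.neighborSet v).Finite := by
  apply (nbhd_finite v).subset
  intro w hw
  exact ⟨hw.2.1, hw.2.2⟩

end Pool.Agent.X258.LLV
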