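import Pool.Agent.X258.LLV.Tree

/-! Voronoi cells in the two products of the 3-regular tree with the integer line. -/

namespace Pool.Agent.X258.LLV

open Finset

/-! ### the strong product: seven separated points with one finite cell -/

/-- parent of the root -/
def x1 : VT := ⟨(∅, -1), by simp⟩
/-- first child of the root -/
def x2 : VT := ⟨(∅, 1), by simp⟩
/-- second child of the root -/
def x3 : VT := ⟨({0}, 1), by simp⟩

theorem adj_x1 : AdjT root x1 := Or.inr ⟨by simp [root, x1], by simp [root, x1]⟩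

theorem nbr_root (w : VT) (h : AdjT root w) : w = x1 ∨ w = x2 ∨ w = x3 := by
  obtain ⟨⟨A, p⟩, hA⟩ := w
  simp only at hA
  rcases h with ⟨h1, h2⟩ | ⟨h1, h2⟩
  · simp only [root, zero_add] at h1 h2
    subst h1
    right
    by_cases h0 : (0 : ℤ) ∈ A
    · right
      apply Subtype.ext
      apply Prod.ext
      · ext j
        show j ∈ A ↔ j ∈ ({0} : Finset ℤ)
        rw [mem_singleton]
        by_cases hj : j = 0
        · subst hj; simp [h0]
        · have := h2 j hj
          simp only [notMem_empty, false_iff] at this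
          tauto
      · rfl
    · left
      apply Subtype.ext
      apply Prod.ext
      · ext j
        show j ∈ A ↔ j ∈ (∅ : Finset ℤ)
        by_cases hj : j = 0
        · subst hj; simp [h0]
        · exact (h2 j hj).symm
      · rfl
  · simp only [root] at h1 h2
    have hp : p = -1 := by omega
    subst hp
    left
    apply Subtype.ext
    apply Prod.ext
    · ext j
      show j ∈ A ↔ j ∈ (∅ : Finset ℤ)
      by_cases hj : j = -1
      · subst hj
        constructor
        · intro h; have := hA _ h; omega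
        · intro h; simp at h
      · exact h2 j hj
    · rfl

/-- the tree coordinate of the blockers -/
def nb (c : ℤ) : VT :=
  if c = 1 ∨ c = -1 then x1 else if c = 2 ∨ c = -2 then x2 else if c = 3 ∨ c = -3 then x3
  else root

/-- the well separated points -/
def Q (N c : ℤ) : VP := (nb c, c * N)

theorem Q_zero (N : ℤ) : Q N 0 = (root, 0) := by simp [Q, nb]

theorem Q_sep (N c c' : ℤ) (hN : 1 ≤ N) (h : c ≠ c') : N ≤ DS (Q N c) (Q N c') := by
  have h1 : N ≤ |c * N - c' * N| := by
    rw [← sub_mul, abs_mul, abs_of_nonneg (by omega : 0 ≤ N)]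
    have : 1 ≤ |c - c'| := Int.one_le_abs (sub_ne_zero.2 h)
    nlinarith
  exact le_trans h1 (le_max_right _ _)

theorem blocked_strong (N : ℤ) (hN : 1 ≤ N) (u : VP)
    (h : ∀ c ∈ Finset.Icc (-3 : ℤ) 3, DS u (Q N 0) ≤ DS u (Q N c)) :
    DT u.1 root ≤ 3 * N ∧ |u.2| ≤ 3 * N := by
  obtain ⟨a, b⟩ := u
  simp only
  have key : ∀ c : ℤ, -3 ≤ c → c ≤ 3 →
      max (DT a root) |b| ≤ max (DT a (nb c)) |b - c * N| := by
    intro c h1 h2
    have := h c (by rw [mem_Icc]; omega)
    rw [Q_zero] at this
    simpa [DS, Q] using this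
  have hpos := DT_nonneg a root
  by_cases ha : a = root
  · subst ha
    rw [DT_self] at *
    have hx : DT root x1 ≤ 1 := by
      have := DT_adj root root x1 adj_x1
      rw [DT_self] at this
      omega
    have k1 := key 1 (by norm_num) (by norm_num)
    have k2 := key (-1) (by norm_num) (by norm_num)
    have e1 : nb 1 = x1 := by simp [nb]
    have e2 : nb (-1) = x1 := by simp [nb]
    rw [e1] at k1
    rw [e2] at k2
    rcases abs_cases b with h1 | h1 <;> rcases abs_cases (b - 1 * N) with h2 | h2 <;>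
      rcases abs_cases (b - -1 * N) with h3 | h3 <;> omega
  · obtain ⟨w, hw1, hw2⟩ := DT_closer a root ha
    have fin : ∀ k : ℤ, 1 ≤ k → k ≤ 3 → nb k = w → nb (-k) = w →
        DT a root ≤ 3 * N ∧ |b| ≤ 3 * N := by
      intro k hk1 hk3 e1 e2
      have k1 := key k (by omega) hk3
      have k2 := key (-k) (by omega) (by omega)
      rw [e1, hw2] at k1
      rw [e2, hw2] at k2
      have hkN : 1 ≤ k * N := by nlinarith
      have hkN3 : k * N ≤ 3 * N := by nlinarith
      rw [show -k * N = -(k * N) by ring] at k2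
      generalize k * N = M at *
      rcases abs_cases b with h1 | h1 <;> rcases abs_cases (b - M) with h2 | h2 <;>
        rcases abs_cases (b - -M) with h3 | h3 <;> omega
    rcases nbr_root w hw1 with h | h | h
    · exact fin 1 (by norm_num) (by norm_num) (by simp [nb, h]) (by simp [nb, h])
    · exact fin 2 (by norm_num) (by norm_num) (by norm_num [nb, h]) (by norm_num [nb, h])
    · exact fin 3 (by norm_num) (by norm_num) (by norm_num [nb, h]) (by norm_num [nb, h])

theorem ball_finite (R : ℤ) : {u : VP | DT u.1 root ≤ R ∧ |u.2| ≤ R}.Finite := by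
  have hinj : Function.Injective (fun u : VP => ((u.1.1, u.2) : Vtx × ℤ)) := by
    rintro ⟨⟨a, ha⟩, b⟩ ⟨⟨c, hc⟩, d⟩ h
    simp only [Prod.mk.injEq] at h
    obtain ⟨rfl, rfl⟩ := h
    rfl
  have hS : (↑(((Finset.Icc (-R) R).powerset ×ˢ Finset.Icc (-R) R) ×ˢ Finset.Icc (-R) R) :
      Set (Vtx × ℤ)).Finite := Finset.finite_toSet _
  apply (hS.preimage hinj.injOn).subset
  rintro ⟨⟨⟨A, p⟩, hA⟩, b⟩ ⟨h1, h2⟩
  simp only at h1 h2 hA
  simp only [DT, root] at h1
  rw [abs_le] at h2
  have a1 := lo_le_left (symmDiff A ∅) p 0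
  have a2 := lo_le_right (symmDiff A ∅) p 0
  simp only [Set.mem_preimage, coe_product, Set.mem_prod, mem_coe, mem_powerset, mem_Icc]
  refine ⟨⟨?_, by omega, by omega⟩, h2⟩
  intro j hj
  have h3 : j ∈ symmDiff A ∅ := by rw [mem_symmDiff]; simp [hj]
  have := lo_le_mem (symmDiff A ∅) p 0 h3
  have := hA j hj
  rw [mem_Icc]
  omega

/-! ### the Cartesian product: rays avoiding finitely many points -/

theorem ray (n : ℕ) (E : Finset VP) (hE : E.card ≤ n) (v : VP)
    (hd : ∀ e ∈ E, 2 * (n : ℤ) < DB v e) : {u : VP | ∀ e ∈ E, DB u v ≤ DB u e}.Infinite := by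
  obtain ⟨⟨⟨A, p⟩, hA⟩, y⟩ := v
  simp only at hA
  -- a good direction
  have hgood : ∃ i ∈ Finset.range (n + 1), ∀ e ∈ E,
      ¬ (p + (i : ℤ) ∈ e.1.1.1 ∧ ∀ i' ∈ Finset.range (n + 1), i' ≠ i → p + (i' : ℤ) ∉ e.1.1.1) := by
    by_contra hcon
    push Not at hcon
    have : Nonempty VP := ⟨(root, 0)⟩
    choose! g hg using hcon
    have h1 : (Finset.range (n + 1)).card ≤ E.card := by
      apply Finset.card_le_card_of_injOn g (fun i hi => (hg i hi).1)
      intro i hi j hj hij
      by_contra hne
      have h2 := hg i hi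
      have h3 := hg j hj
      rw [← hij] at h3
      exact h2.2.2 j hj (Ne.symm hne) h3.2.1
    rw [card_range] at h1
    omega
  obtain ⟨i, hi, hgi⟩ := hgood
  rw [mem_range] at hi
  set X : Finset ℤ := insert (p + (i : ℤ)) A with hX
  have hmX : ∀ j, j ∈ X ↔ (j = p + (i : ℤ) ∨ j ∈ A) := fun j => mem_insert
  have hXb : ∀ L : ℕ, ∀ j ∈ X, j < p + n + 1 + L := by
    intro L j hj
    rcases (hmX j).1 hj with h | h
    · omega
    · have := hA j h; omega
  have hinj : Function.Injective
      (fun L : ℕ => ((⟨(X, p + n + 1 + L), hXb L⟩, y) : VP)) := by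
    intro L L' h
    simp only [Prod.mk.injEq, Subtype.mk.injEq, true_and, and_true] at h
    omega
  apply Set.infinite_of_injective_forall_mem hinj
  intro L e he
  obtain ⟨⟨⟨C, r⟩, hC⟩, z⟩ := e
  have hd' := hd _ he
  have hg' := hgi _ he
  simp only at hC hg'
  simp only [DB, DT] at hd' ⊢
  rw [sub_self, abs_zero]
  have e1 : lo (symmDiff X A) (p + n + 1 + L) p = p := by
    apply lo_eq (by omega) le_rfl ?_ (Or.inr (Or.inl rfl))
    intro j hj
    rcases mem_symmDiff.1 hj with ⟨h, h'⟩ | ⟨h, h'⟩
    · rcases (hmX j).1 h with h | h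
      · omega
      · exact absurd h h'
    · exact absurd ((hmX j).2 (Or.inr h)) h'
  rw [e1]
  have a1 := lo_le_left (symmDiff A C) p r
  have a2 := lo_le_right (symmDiff A C) p r
  have claim : lo (symmDiff X C) (p + n + 1 + L) r ≤ lo (symmDiff A C) p r + n := by
    rcases lt_or_eq_of_le a1 with hlt | heq
    · rcases lo_cases (symmDiff A C) p r with h | h | h
      · omega
      · have := lo_le_right (symmDiff X C) (p + n + 1 + L) r
        omega
      · have hmem : lo (symmDiff A C) p r ∈ symmDiff X C := by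
          rw [mem_symmDiff, hmX]
          rw [mem_symmDiff] at h
          have hne : lo (symmDiff A C) p r ≠ p + (i : ℤ) := by omega
          tauto
        have := lo_le_mem (symmDiff X C) (p + n + 1 + L) r hmem
        omega
    · rw [heq]
      by_cases hpi : p + (i : ℤ) ∈ C
      · have h2 : ∃ i' ∈ Finset.range (n + 1), i' ≠ i ∧ p + (i' : ℤ) ∈ C := by
          by_contra hcon
          push Not at hcon
          exact hg' ⟨hpi, hcon⟩
        obtain ⟨i', hi', hne, hmem⟩ := h2
        rw [mem_range] at hi'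
        have hmem' : p + (i' : ℤ) ∈ symmDiff X C := by
          rw [mem_symmDiff, hmX]
          right
          refine ⟨hmem, ?_⟩
          rintro (h | h)
          · omega
          · have := hA _ h; omega
        have := lo_le_mem (symmDiff X C) (p + n + 1 + L) r hmem'
        omega
      · have hmem' : p + (i : ℤ) ∈ symmDiff X C := by
          rw [mem_symmDiff, hmX]
          exact Or.inl ⟨Or.inl rfl, hpi⟩
        have := lo_le_mem (symmDiff X C) (p + n + 1 + L) r hmem'
        omega
  omega

/-! ### cells and blocking -/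

theorem fin_of_cells {V : Type*} (D : V → V → ℕ) (T E : Finset V)
    (hfin : ∀ v ∈ T, v ∉ E → {u : V | ∀ w ∈ T, D u v ≤ D u w}.Finite)
    (v : V) (hv : v ∈ T) (hvE : v ∉ E) : {u : V | ∀ e ∈ E, D u v ≤ D u e}.Finite := by
  classical
  have hF : (⋃ w ∈ T \ E, {u : V | ∀ x ∈ T, D u w ≤ D u x}).Finite := by
    apply Set.Finite.biUnion (Finset.finite_toSet _)
    intro w hw
    rw [mem_coe, mem_sdiff] at hw
    exact hfin w hw.1 hw.2
  apply hF.subset
  intro u hu
  obtain ⟨e, he, hmin⟩ := Finset.exists_min_image T (D u) ⟨v, hv⟩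
  by_cases heE : e ∈ E
  · simp only [Set.mem_iUnion]
    exact ⟨v, mem_sdiff.2 ⟨hv, hvE⟩, fun x hx => le_trans (hu e heE) (hmin x hx)⟩
  · simp only [Set.mem_iUnion]
    exact ⟨e, mem_sdiff.2 ⟨he, heE⟩, hmin⟩

end Pool.Agent.X258.LLV
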